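import Mathlib

/-!
# Associativity of a finitely generated alternative algebra is a finite condition

Project WA (problem MP_59b51d_al), by helper817.
-/

set_option autoImplicit false

namespace Pool.Agent.Y817.WA

section
variable {X A : Type} [NonUnitalNonAssocRing A]

/-- The associator. -/
def as (x y z : A) : A := x * y * z - x * (y * z)

theorem as_add1 (x x' y z : A) : as (x + x') y z = as x y z + as x' y z := by
  unfold as
  simp only [add_mul]
  abel

theorem as_add2 (x y y' z : A) : as x (y + y') z = as x y z + as x y' z := by
  unfold as
  simp only [add_mul, mul_add]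
  abel

theorem as_add3 (x y z z' : A) : as x y (z + z') = as x y z + as x y z' := by
  unfold as
  simp only [mul_add]
  abel

theorem as_neg1 (x y z : A) : as (-x) y z = - as x y z := by
  unfold as
  simp only [neg_mul]
  abel

theorem as_neg2 (x y z : A) : as x (-y) z = - as x y z := by
  unfold as
  simp only [neg_mul, mul_neg]
  abel

theorem as_neg3 (x y z : A) : as x y (-z) = - as x y z := by
  unfold as
  simp only [mul_neg]
  abel

theorem as_zero1 (y z : A) : as 0 y z = 0 := by simp [as]
theorem as_zero2 (x z : A) : as x 0 z = 0 := by simp [as]
theorem as_zero3 (x y : A) : as x y 0 = 0 := by simp [as]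

theorem cocycle (w x y z : A) :
    as (w * x) y z - as w (x * y) z + as w x (y * z) = w * as x y z + as w x y * z := by
  unfold as
  simp only [mul_sub, sub_mul]
  abel

/-- Alternative algebras. -/
def IsAlt (A : Type) [NonUnitalNonAssocRing A] : Prop :=
  ∀ x y : A, x * x * y = x * (x * y) ∧ y * x * x = y * (x * x)

variable (hA : IsAlt A)
include hA

theorem skew12 (x y z : A) : as x y z = - as y x z := by
  have h := fun u : A => (hA u z).1
  have h0 : ∀ u : A, as u u z = 0 := fun u => by unfold as; rw [h u, sub_self]
  have h1 := h0 (x + y)
  rw [as_add1, as_add2, as_add2, h0 x, h0 y] at h1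
  rw [zero_add, add_zero] at h1
  exact eq_neg_of_add_eq_zero_left h1

theorem skew23 (x y z : A) : as x y z = - as x z y := by
  have h := fun u : A => (hA u x).2
  have h0 : ∀ u : A, as x u u = 0 := fun u => by unfold as; rw [h u, sub_self]
  have h1 := h0 (y + z)
  rw [as_add2, as_add3, as_add3, h0 y, h0 z] at h1
  rw [zero_add, add_zero] at h1
  exact eq_neg_of_add_eq_zero_left h1

/-- Values of nonassociative words: all associators vanish. -/
theorem words (h2 : ∀ x : A, x + x = 0 → x = 0) (g : X → A)
    (b1 : ∀ i j k, as (g i) (g j) (g k) = 0)
    (b2 : ∀ i j k l, as (g i * g j) (g k) (g l) = 0) :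
    ∀ (N : ℕ) (u v w : FreeMagma X), u.length + v.length + w.length = N →
      as (FreeMagma.lift g u) (FreeMagma.lift g v) (FreeMagma.lift g w) = 0 := by
  intro N
  induction N using Nat.strong_induction_on with
  | _ N IH =>
  set E : FreeMagma X → A := fun u => FreeMagma.lift g u with hE
  have Emul : ∀ u v, E (u * v) = E u * E v := fun u v => map_mul _ u v
  have IH' : ∀ u v w : FreeMagma X, u.length + v.length + w.length < N →
      as (E u) (E v) (E w) = 0 := fun u v w h => IH _ h u v w rfl
  have lm : ∀ u v : FreeMagma X, (u * v).length = u.length + v.length := fun u v => rfl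
  have lp : ∀ u : FreeMagma X, 0 < u.length := fun u => FreeMagma.length_pos u
  -- rotation
  have e1 : ∀ w x y z : FreeMagma X, w.length + x.length + y.length + z.length = N →
      as (E w * E x) (E y) (E z) + as (E x * E y) (E w) (E z) + as (E y * E z) (E w) (E x) = 0 := by
    intro w x y z hN
    have hw := lp w
    have hz := lp z
    have h := cocycle (E w) (E x) (E y) (E z)
    rw [IH' x y z (by omega), IH' w x y (by omega), mul_zero, zero_mul, add_zero] at h
    rw [skew12 hA (E w) (E x * E y) (E z), skew23 hA (E w) (E x) (E y * E z),
      skew12 hA (E w) (E y * E z) (E x)] at h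
    rw [← h]
    abel
  have rot : ∀ w x y z : FreeMagma X, w.length + x.length + y.length + z.length = N →
      as (E w * E x) (E y) (E z) = - as (E z * E w) (E x) (E y) := by
    intro w x y z hN
    have h1 := e1 w x y z hN
    have h3 := e1 x y z w (by omega)
    rw [skew23 hA (E x * E y) (E z) (E w)] at h3
    have hq : as (E y * E z) (E x) (E w) = - as (E y * E z) (E w) (E x) := skew23 hA _ _ _
    rw [hq] at h3
    have h4 : as (E x * E y) (E w) (E z) = -(as (E w * E x) (E y) (E z)) -
        as (E y * E z) (E w) (E x) := by
      rw [← sub_eq_zero, ← h1]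
      abel
    rw [h4] at h3
    rw [← sub_eq_zero, ← h3]
    abel
  have rot2 : ∀ w x y z : FreeMagma X, w.length + x.length + y.length + z.length = N →
      as (E w * E x) (E y) (E z) = as (E y * E z) (E w) (E x) := by
    intro w x y z hN
    rw [rot w x y z hN, rot z w x y (by omega), neg_neg]
  have sw : ∀ w x y z : FreeMagma X, w.length + x.length + y.length + z.length = N →
      as (E w * E x) (E y) (E z) = - as (E x * E w) (E y) (E z) := by
    intro w x y z hN
    rw [rot2 w x y z hN, skew23 hA, rot2 y z x w (by omega)]
  have G : ∀ p q a b c : FreeMagma X, p.length + q.length + a.length + b.length + c.length = N →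
      as (E (p * q) * E a) (E b) (E c) = - as (E (q * a) * E p) (E b) (E c) := by
    intro p q a b c hN
    have hb := lp b
    have hc := lp c
    have h1 := IH' p q a (by omega)
    have h3 : E (p * q) * E a = E p * E (q * a) := by
      rw [Emul, Emul]
      exact sub_eq_zero.1 h1
    rw [h3]
    exact sw p (q * a) b c (by rw [lm]; omega)
  have G0 : ∀ p q a b c : FreeMagma X, p.length + q.length + a.length + b.length + c.length = N →
      as (E (p * q) * E a) (E b) (E c) = 0 := by
    intro p q a b c hN
    apply h2
    have h1 := G p q a b c hN
    have h3 := G q a p b c (by omega)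
    have h4 := G a p q b c (by omega)
    rw [h3, h4] at h1
    nth_rewrite 1 [h1]
    abel
  have F : ∀ w x y z : FreeMagma X, w.length + x.length + y.length + z.length = N →
      as (E (w * x)) (E y) (E z) = 0 := by
    intro w x y z hN
    rw [Emul]
    cases w with
    | mul p q => exact G0 p q x y z (by rw [← hN]; rfl)
    | of i =>
      cases x with
      | mul p q =>
        rw [sw _ _ _ _ hN]
        have := G0 p q (FreeMagma.of i) y z (by rw [← hN]; simp only [FreeMagma.length]; omega)
        rw [show E (p.mul q) = E (p * q) from rfl, this, neg_zero]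
      | of j =>
        cases y with
        | mul p q =>
          rw [rot2 _ _ _ _ hN]
          exact G0 p q z (FreeMagma.of i) (FreeMagma.of j)
            (by rw [← hN]; simp only [FreeMagma.length]; omega)
        | of k =>
          cases z with
          | mul p q =>
            rw [rot _ _ _ _ hN]
            have := G0 p q (FreeMagma.of i) (FreeMagma.of j) (FreeMagma.of k)
              (by rw [← hN]; simp only [FreeMagma.length]; omega)
            rw [show E (p.mul q) = E (p * q) from rfl, this, neg_zero]
          | of l => exact b2 i j k l
  intro u v w hN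
  cases u with
  | mul p q => exact F p q v w (by rw [← hN]; rfl)
  | of i =>
    cases v with
    | mul p q =>
      change as (E (FreeMagma.of i)) (E (p * q)) (E w) = 0
      rw [skew12 hA, F p q (FreeMagma.of i) w
        (by rw [← hN]; simp only [FreeMagma.length]; omega), neg_zero]
    | of j =>
      cases w with
      | mul p q =>
        change as (E (FreeMagma.of i)) (E (FreeMagma.of j)) (E (p * q)) = 0
        rw [skew23 hA, skew12 hA, F p q (FreeMagma.of i) (FreeMagma.of j)
          (by rw [← hN]; simp only [FreeMagma.length]; omega), neg_zero, neg_zero]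
      | of k => exact b1 i j k

end

end Pool.Agent.Y817.WA
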