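import Mathlib

/-!
# The word problem in varieties of nonassociative algebras

Project WA (problem MP_59b51d_al), by helper817.

Algebras need not be associative nor have a unit.  A nonassociative polynomial over `K` in the letters
`X` is given by a list of terms `(c, u)`: the coefficient `c : K` and the nonassociative word `u`,
an element of the free magma on `X`.
-/

set_option autoImplicit false

namespace Pool.Agent.Y817.WA

/-- The value of a nonassociative polynomial when the letter `y` has the value `a y`. -/
def evalPoly {K X A : Type} [Field K] [NonUnitalNonAssocRing A] [Module K A] (a : X → A)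
    (f : List (K × FreeMagma X)) : A :=
  (f.map fun t => t.1 • FreeMagma.lift a t.2).sum

/-- `A` belongs to the variety defined by the set `Id` of identities (in the letters `ℕ`). -/
def InVar {K : Type} [Field K] (Id : Set (List (K × FreeMagma ℕ))) (A : Type)
    [NonUnitalNonAssocRing A] [Module K A] : Prop :=
  ∀ f ∈ Id, ∀ a : ℕ → A, evalPoly a f = 0

/-- The variety defined by `Id` contains the variety `W_K` of the associative algebras which satisfy
`x[y,z][t,u]v = 0` and `x[y,z,t]u = 0`. -/
def ContainsW (K : Type) [Field K] (Id : Set (List (K × FreeMagma ℕ))) : Prop :=
  ∀ (A : Type) [NonUnitalRing A] [Module K A] [IsScalarTower K A A] [SMulCommClass K A A],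
    (∀ x y z t u v : A, x * (y * z - z * y) * (t * u - u * t) * v = 0) →
    (∀ x y z t u : A, x * ((y * z - z * y) * t - t * (y * z - z * y)) * u = 0) →
    InVar Id A

/-- All algebras of the variety defined by `Id` are alternative. -/
def IsAlternative (K : Type) [Field K] (Id : Set (List (K × FreeMagma ℕ))) : Prop :=
  ∀ (A : Type) [NonUnitalNonAssocRing A] [Module K A] [IsScalarTower K A A] [SMulCommClass K A A],
    InVar Id A → ∀ x y : A, x * x * y = x * (x * y) ∧ y * x * x = y * (x * x)

/-- The polynomial `w` is equal to zero in the algebra presented by the generators `X` and the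
relations `r = 0`, `r ∈ R`, in the variety defined by `Id`: it vanishes at every point of every algebra
of the variety at which all members of `R` vanish. -/
def ZeroIn {K : Type} [Field K] (Id : Set (List (K × FreeMagma ℕ))) {X : Type}
    (R : List (List (K × FreeMagma X))) (w : List (K × FreeMagma X)) : Prop :=
  ∀ (A : Type) [NonUnitalNonAssocRing A] [Module K A] [IsScalarTower K A A] [SMulCommClass K A A],
    InVar Id A → ∀ a : X → A, (∀ r ∈ R, evalPoly a r = 0) → evalPoly a w = 0

/-- The (reverse Polish) code of a nonassociative word: the letter `x` has the code `x`, and `u * v`
has the code `(code of u) (code of v) *`, where `*` is written `none`. -/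
def code {X : Type} : FreeMagma X → List (Option X)
  | .of x => [some x]
  | .mul u v => code u ++ code v ++ [none]

/-- The word problem of this finitely presented algebra of the variety is decidable, when the
elements of `K` are coded by natural numbers through `ν` and the words are given by their codes. -/
def DecidableWP {K : Type} [Field K] (ν : ℕ → K) (Id : Set (List (K × FreeMagma ℕ))) {k : ℕ}
    (R : List (List (K × FreeMagma (Fin k)))) : Prop :=
  ∃ d : List (ℕ × List (Option (Fin k))) → Bool, Computable d ∧
    ∀ w : List (ℕ × FreeMagma (Fin k)),
      d (w.map fun t => (t.1, code t.2)) = true ↔ ZeroIn Id R (w.map fun t => (ν t.1, t.2))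

end Pool.Agent.Y817.WA
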