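import Mathlib

/-!
# The algebra `A ^ (+)`
-/

set_option autoImplicit false

namespace Pool.Agent.Y817.WA.Jor

/-! ### The symmetrized product -/

/-- The symmetrized product. -/
def pm {A : Type} [NonUnitalNonAssocRing A] (x y : A) : A := x * y + y * x

section
variable {A : Type} [NonUnitalNonAssocRing A]

theorem pm_add (x y z : A) : pm x (y + z) = pm x y + pm x z := by
  unfold pm
  rw [mul_add, add_mul]
  abel

theorem add_pm (x y z : A) : pm (x + y) z = pm x z + pm y z := by
  unfold pm
  rw [mul_add, add_mul]
  abel

theorem zero_pm (x : A) : pm 0 x = 0 := by simp [pm]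

theorem pm_zero (x : A) : pm x 0 = 0 := by simp [pm]

variable {F : Type} [Field F] [Module F A] [IsScalarTower F A A] [SMulCommClass F A A]

theorem smul_pm (r : F) (x y : A) : pm (r • x) y = r • pm x y := by
  unfold pm
  rw [smul_add, smul_mul_assoc, mul_smul_comm]

theorem pm_smul (r : F) (x y : A) : pm x (r • y) = r • pm x y := by
  unfold pm
  rw [smul_add, smul_mul_assoc, mul_smul_comm]

end

/-- The algebra `A ^ (+)`: the vector space `A` with the product `x y + y x`. -/
def Plus (A : Type) : Type := A

section
variable {A : Type} [NonUnitalNonAssocRing A]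

instance : AddCommGroup (Plus A) := inferInstanceAs (AddCommGroup A)

instance : NonUnitalNonAssocRing (Plus A) :=
  { (inferInstance : AddCommGroup (Plus A)) with
    mul := fun x y => (pm (A := A) x y : A)
    left_distrib := fun x y z => pm_add (A := A) x y z
    right_distrib := fun x y z => add_pm (A := A) x y z
    zero_mul := fun x => zero_pm (A := A) x
    mul_zero := fun x => pm_zero (A := A) x }

variable {F : Type} [Field F] [Module F A]

instance : Module F (Plus A) := inferInstanceAs (Module F A)

variable [IsScalarTower F A A] [SMulCommClass F A A]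

instance : IsScalarTower F (Plus A) (Plus A) where
  smul_assoc r x y := smul_pm (A := A) r x y

instance : SMulCommClass F (Plus A) (Plus A) where
  smul_comm r x y := (pm_smul (A := A) r x y).symm

end

end Pool.Agent.Y817.WA.Jor
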