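import Pool.Agent.H91R2.RFD.Basic2
import Pool.Agent.Y817.WA.JDefs

/-!
# Varieties of Jordan-admissible algebras

Project WA (problem MP_038c09_al), by helper817.
-/

set_option autoImplicit false

namespace Pool.Agent.Y817.WA.Jor

/-! ### Commutative Jordan rings -/

section
variable {J : Type} [NonUnitalNonAssocRing J]

/-- The linearized Jordan polynomial. -/
def G (a b d c : J) : J :=
  ((a * b) * c) * d + ((b * d) * c) * a + ((d * a) * c) * b -
    (a * b) * (c * d) - (b * d) * (c * a) - (d * a) * (c * b)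

/-- The Jordan polynomial. -/
def jp (x c : J) : J := ((x * x) * c) * x - (x * x) * (c * x)

variable (hc : ∀ x y : J, x * y = y * x) (hj : ∀ x y : J, ((x * x) * y) * x = (x * x) * (y * x))
  (h2 : ∀ x : J, x + x = 0 → x = 0)
include hc hj h2

theorem G_eq_zero (a b d c : J) : G a b d c = 0 := by
  have hz : ∀ x, jp x c = 0 := fun x => sub_eq_zero.2 (hj x c)
  apply h2
  have key : G a b d c + G a b d c = jp (a + b + d) c - jp (a + b) c - jp (b + d) c -
      jp (a + d) c + jp a c + jp b c + jp d c := by
    unfold G jp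
    simp only [add_mul, mul_add, hc b a, hc d a, hc d b]
    abel
  rw [key, hz, hz, hz, hz, hz, hz, hz]
  abel

theorem deriv (a c b w : J) : (c * (a * b) - a * (c * b)) * w =
    (c * (a * (b * w)) - a * (c * (b * w))) - b * (c * (a * w) - a * (c * w)) := by
  have g1 := G_eq_zero hc hj h2 a b w c
  have g2 := G_eq_zero hc hj h2 c b w a
  rw [← sub_eq_zero]
  have key : (c * (a * b) - a * (c * b)) * w -
      ((c * (a * (b * w)) - a * (c * (b * w))) - b * (c * (a * w) - a * (c * w))) =
      G a b w c - G c b w a := by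
    unfold G
    simp only [sub_mul, mul_sub, hc a w, hc c w, hc c a, hc (c * b) (w * a), hc (a * b) (w * c),
      hc c (a * b), hc a (c * b), hc a (b * w), hc c ((b * w) * a), hc c (b * w),
      hc a ((b * w) * c), hc c (w * a), hc b ((w * a) * c), hc a (w * c), hc b ((w * c) * a)]
    abel
  rw [key, g1, g2, sub_zero]

theorem comm_e {e b : J} (he : e * e = e + e) (hb : e * b = b + b) (u : J) :
    e * (b * u) = b * (e * u) := by
  have g := G_eq_zero hc hj h2 e e b u
  have key : G e e b u = (e * (b * u) - b * (e * u)) + (e * (b * u) - b * (e * u)) := by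
    unfold G
    rw [hc b e, he, hb]
    simp only [add_mul, hc e u, hc b u, hc (u * e) b, hc (u * b) e]
    abel
  rw [key] at g
  exact sub_eq_zero.1 (h2 _ g)

end

theorem pm_comm {A : Type} [NonUnitalNonAssocRing A] (x y : A) : pm x y = pm y x := by
  unfold pm
  rw [add_comm]

/-! ### Finite-dimensional quotients -/

section
variable {F : Type} [Field F] [CharZero F] {A : Type} [NonUnitalNonAssocRing A] [Module F A]
  [IsScalarTower F A A] [SMulCommClass F A A]

/-- Symmetrized multiplication by `u`. -/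
noncomputable def Lu (F : Type) [Field F] {A : Type} [NonUnitalNonAssocRing A] [Module F A]
    [IsScalarTower F A A] [SMulCommClass F A A] (u : A) : A →ₗ[F] A :=
  LinearMap.mulLeft F u + LinearMap.mulRight F u

theorem Lu_apply (u v : A) : Lu F u v = pm u v := rfl

theorem fd (hJ : ∀ x y : A, pm (pm (pm x x) y) x = pm (pm x x) (pm y x)) (a b e : A)
    (he : pm e e = e + e) (ha : pm e a = a + a) (hb : pm e b = b + b)
    (hD : pm (pm a a) (pm b b) - pm b (pm (pm a a) b) = e + e + e + e)
    (I : Submodule F A) (hI : H91RFD.IsIdeal F I) (hfin : FiniteDimensional F (A ⧸ I)) :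
    e ∈ I := by
  have htors : ∀ x : A, x + x = 0 → x = 0 := by
    intro x hx
    rw [← two_smul F x] at hx
    rcases smul_eq_zero.1 hx with h2 | h2
    · exact absurd h2 two_ne_zero
    · exact h2
  have hcomm : ∀ x y : Plus A, x * y = y * x := fun x y => pm_comm (A := A) x y
  have hder : ∀ c w : A, pm (pm c (pm b b) - pm b (pm c b)) w =
      (pm c (pm b (pm b w)) - pm b (pm c (pm b w))) - pm b (pm c (pm b w) - pm b (pm c w)) :=
    fun c w => deriv (J := Plus A) hcomm hJ htors b c b w
  have hce : ∀ {b' : A}, pm e b' = b' + b' → ∀ u : A, pm e (pm b' u) = pm b' (pm e u) :=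
    fun {b'} h u => comm_e (J := Plus A) hcomm hJ htors (e := e) (b := b') he h u
  set c : A := pm a a with hcdef
  have hadd2 : ∀ x y z : A, pm x (y + z) = pm x y + pm x z := fun x y z =>
    mul_add (R := Plus A) x y z
  have hadd1 : ∀ x y z : A, pm (x + y) z = pm x z + pm y z := fun x y z =>
    add_mul (R := Plus A) x y z
  have hec : pm e c = c + c := by
    rw [hcdef, hce ha, ha, hadd2]
  have hle : ∀ u : A, I ≤ I.comap (Lu F u) := by
    intro u x hx
    rw [Submodule.mem_comap, Lu_apply]
    exact I.add_mem (hI x hx u).2 (hI x hx u).1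
  let T : A → (A ⧸ I) →ₗ[F] (A ⧸ I) := fun u => I.mapQ I (Lu F u) (hle u)
  have hT : ∀ u v : A, T u (I.mkQ v) = I.mkQ (pm u v) := fun u v => rfl
  let N : Submodule F (A ⧸ I) := Module.End.eigenspace (T e) 2
  have hNmem : ∀ x, x ∈ N ↔ T e x = (2 : F) • x := fun x => Module.End.mem_eigenspace_iff
  have hcm : ∀ {b' : A}, pm e b' = b' + b' → ∀ x, T e (T b' x) = T b' (T e x) := by
    intro b' hb' x
    obtain ⟨u, rfl⟩ := Submodule.mkQ_surjective I x
    rw [hT, hT, hT, hT, hce hb' u]
  have hinv : ∀ {b' : A}, pm e b' = b' + b' → ∀ x ∈ N, T b' x ∈ N := by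
    intro b' hb' x hx
    rw [hNmem] at hx ⊢
    rw [hcm hb', hx, map_smul]
  let t : Module.End F N := (T b).restrict (hinv hb)
  let s' : Module.End F N := (T c).restrict (hinv hec)
  let s : Module.End F N := s' * t - t * s'
  have hst : s * t - t * s = (8 : F) • (1 : Module.End F N) := by
    apply LinearMap.ext
    intro x
    apply Subtype.ext
    obtain ⟨u, hu⟩ := Submodule.mkQ_surjective I x.1
    have hx := (hNmem x.1).1 x.2
    have h1 : (((s * t - t * s) x : N) : A ⧸ I) =
        (T c (T b (T b x.1)) - T b (T c (T b x.1))) - T b (T c (T b x.1) - T b (T c x.1)) := by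
      rfl
    have h3 := hder c u
    rw [hD] at h3
    rw [h1, ← hu]
    simp only [hT, ← map_sub]
    rw [← h3, hadd1, hadd1, hadd1]
    rw [← hu, hT] at hx
    rw [map_add, map_add, map_add, hx]
    change _ = (8 : F) • x.1
    rw [← hu, ← add_smul, ← add_smul, ← add_smul]
    norm_num
  have htr : LinearMap.trace F N (s * t) - LinearMap.trace F N (t * s) =
      LinearMap.trace F N ((8 : F) • (1 : Module.End F N)) := by
    rw [← hst]
    exact (LinearMap.map_sub (LinearMap.trace F N) (s * t) (t * s)).symm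
  have htr2 : LinearMap.trace F N ((8 : F) • (1 : Module.End F N)) =
      (8 : F) * (Module.finrank F N : F) := by
    refine (LinearMap.map_smul (LinearMap.trace F N) (8 : F) (1 : Module.End F N)).trans ?_
    rw [LinearMap.trace_one, smul_eq_mul]
  rw [LinearMap.trace_mul_comm, sub_self, htr2] at htr
  have hfr : (Module.finrank F N : F) = 0 := by
    rcases mul_eq_zero.1 htr.symm with h | h
    · norm_num at h
    · exact h
  have hfr' : Module.finrank F N = 0 := by exact_mod_cast hfr
  have hN0 : N = ⊥ := Submodule.finrank_eq_zero.1 hfr'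
  have heN : I.mkQ e ∈ N := by
    rw [hNmem, hT, he, two_smul, map_add]
  rw [hN0, Submodule.mem_bot, Submodule.mkQ_apply, Submodule.Quotient.mk_eq_zero] at heN
  exact heN

end

/-! ### The Weyl algebra -/

theorem weyl1 {A : Type} [Ring A] (u a b : A) (hu : u * b = b * u + a + a)
    (h : a * b = b * a + 1) :
    pm (u + u) (b * b + b * b) - pm b (pm (u + u) b) = (1 : A) + 1 + 1 + 1 := by
  have k1 : pm (u + u) (b * b + b * b) - pm b (pm (u + u) b) =
      2 * (u * b * b) + 2 * (b * b * u) - 4 * (b * (u * b)) := by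
    unfold pm
    noncomm_ring
  have k2 : u * b * b = b * b * u + 4 * (b * a) + 2 := by
    rw [hu, add_mul, add_mul, mul_assoc b u b, hu, h]
    noncomm_ring
    norm_num
  have k3 : b * (u * b) = b * b * u + 2 * (b * a) := by
    rw [hu]
    noncomm_ring
  rw [k1, k2, k3]
  noncomm_ring
  norm_num

theorem weyl {A : Type} [Ring A] (a b : A) (h : a * b = b * a + 1) :
    pm (pm a a) (pm b b) - pm b (pm (pm a a) b) = (1 : A) + 1 + 1 + 1 := by
  have hu : a * a * b = b * (a * a) + a + a := by
    rw [mul_assoc, h, mul_add, ← mul_assoc, h, mul_one, add_mul, one_mul, mul_assoc]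
  exact weyl1 (a * a) a b hu h

open H91RFD FreeNonUnitalNonAssocAlgebra

/-- The letters `a, b, e`. -/
noncomputable def L (F : Type) [Field F] (i : Fin 3) : Free F (Fin 3) := of F i

/-- The relators. -/
noncomputable def rels (F : Type) [Field F] : Set (Free F (Fin 3)) :=
  {pm (L F 2) (L F 2) - (L F 2 + L F 2), pm (L F 2) (L F 0) - (L F 0 + L F 0),
    pm (L F 2) (L F 1) - (L F 1 + L F 1),
    pm (pm (L F 0) (L F 0)) (pm (L F 1) (L F 1)) -
      pm (L F 1) (pm (pm (L F 0) (L F 0)) (L F 1)) - (L F 2 + L F 2 + L F 2 + L F 2)}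

theorem lift_pm {F : Type} [Field F] {A : Type} [NonUnitalNonAssocRing A] [Module F A]
    [IsScalarTower F A A] [SMulCommClass F A A] (s : Fin 3 → A) (x y : Free F (Fin 3)) :
    lift F s (pm x y) = pm (lift F s x) (lift F s y) := by
  unfold pm
  rw [map_add, map_mul, map_mul]

theorem lift_L {F : Type} [Field F] {A : Type} [NonUnitalNonAssocRing A] [Module F A]
    [IsScalarTower F A A] [SMulCommClass F A A] (s : Fin 3 → A) (i : Fin 3) :
    lift F s (L F i) = s i := by
  unfold L
  exact lift_of_apply F s i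

/-- A point of a model. -/
structure Pt {A : Type} [NonUnitalNonAssocRing A] (a b e : A) : Prop where
  ee : pm e e = e + e
  ea : pm e a = a + a
  eb : pm e b = b + b
  D : pm (pm a a) (pm b b) - pm b (pm (pm a a) b) = e + e + e + e

theorem pt_iff {F : Type} [Field F] {A : Type} [NonUnitalNonAssocRing A] [Module F A]
    [IsScalarTower F A A] [SMulCommClass F A A] (s : Fin 3 → A) :
    (∀ r ∈ rels F, lift F s r = 0) ↔ Pt (s 0) (s 1) (s 2) := by
  constructor
  · intro h
    have h1 := h (pm (L F 2) (L F 2) - (L F 2 + L F 2)) (by simp [rels])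
    have h2 := h (pm (L F 2) (L F 0) - (L F 0 + L F 0)) (by simp [rels])
    have h3 := h (pm (L F 2) (L F 1) - (L F 1 + L F 1)) (by simp [rels])
    have h4 := h (pm (pm (L F 0) (L F 0)) (pm (L F 1) (L F 1)) -
      pm (L F 1) (pm (pm (L F 0) (L F 0)) (L F 1)) - (L F 2 + L F 2 + L F 2 + L F 2))
      (by simp [rels])
    simp only [map_sub, map_add, lift_pm, lift_L] at h1 h2 h3 h4
    exact ⟨sub_eq_zero.1 h1, sub_eq_zero.1 h2, sub_eq_zero.1 h3, sub_eq_zero.1 h4⟩
  · intro h r hr
    simp only [rels, Set.mem_insert_iff, Set.mem_singleton_iff] at hr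
    rcases hr with rfl | rfl | rfl | rfl
    · simp only [map_sub, map_add, lift_pm, lift_L]
      exact sub_eq_zero.2 h.ee
    · simp only [map_sub, map_add, lift_pm, lift_L]
      exact sub_eq_zero.2 h.ea
    · simp only [map_sub, map_add, lift_pm, lift_L]
      exact sub_eq_zero.2 h.eb
    · simp only [map_sub, map_add, lift_pm, lift_L]
      exact sub_eq_zero.2 h.D

/-- The point of the algebra of operators on polynomials. -/
theorem pt_end (F : Type) [Field F] :
    ∃ a b : Module.End F (Polynomial F), Pt a b (1 : Module.End F (Polynomial F)) := by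
  have hh : (Polynomial.derivative : Module.End F (Polynomial F)) *
      (LinearMap.mulLeft F Polynomial.X : Module.End F (Polynomial F)) =
      (LinearMap.mulLeft F Polynomial.X : Module.End F (Polynomial F)) *
        (Polynomial.derivative : Module.End F (Polynomial F)) + 1 := by
    apply LinearMap.ext
    intro f
    rw [LinearMap.add_apply, Module.End.mul_apply, Module.End.mul_apply, Module.End.one_apply,
      LinearMap.mulLeft_apply, LinearMap.mulLeft_apply, Polynomial.derivative_mul,
      Polynomial.derivative_X, one_mul, add_comm]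
  generalize (Polynomial.derivative : Module.End F (Polynomial F)) = a at hh
  generalize (LinearMap.mulLeft F Polynomial.X : Module.End F (Polynomial F)) = b at hh
  exact ⟨a, b, by simp [pm], by simp [pm], by simp [pm], weyl a b hh⟩

section
variable {F : Type} [Field F] [CharZero F] {A : Type} [NonUnitalNonAssocRing A] [Module F A]
  [IsScalarTower F A A] [SMulCommClass F A A]

/-- `x ↦ x / 2`. -/
def toP (F : Type) [Field F] {A : Type} [NonUnitalNonAssocRing A] [Module F A] (x : A) : Plus A :=
  ((2⁻¹ : F) • x : A)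

theorem pm_toP (x y : A) : pm (toP F x) (toP F y) = toP F (pm x y) := by
  change pm (A := A) ((2⁻¹ : F) • x) ((2⁻¹ : F) • y) + pm (A := A) ((2⁻¹ : F) • y) ((2⁻¹ : F) • x) =
    (2⁻¹ : F) • pm x y
  rw [pm_comm ((2⁻¹ : F) • y), smul_pm, pm_smul,
    ← two_smul F ((2⁻¹ : F) • (2⁻¹ : F) • pm x y), smul_smul (2 : F),
    mul_inv_cancel₀ two_ne_zero, one_smul]

omit [CharZero F] [IsScalarTower F A A] [SMulCommClass F A A] in
theorem toP_add (x y : A) : toP F (x + y) = toP F x + toP F y := smul_add (2⁻¹ : F) x y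

omit [CharZero F] [IsScalarTower F A A] [SMulCommClass F A A] in
theorem toP_sub (x y : A) : toP F (x - y) = toP F x - toP F y := smul_sub (2⁻¹ : F) x y

/-- The corresponding point of `A ^ (+)`. -/
theorem pt_plus {a b e : A} (h : Pt a b e) : Pt (toP F a) (toP F b) (toP F e) := by
  refine ⟨?_, ?_, ?_, ?_⟩
  · rw [pm_toP, h.ee, toP_add]
  · rw [pm_toP, h.ea, toP_add]
  · rw [pm_toP, h.eb, toP_add]
  · rw [pm_toP, pm_toP, pm_toP, pm_toP, pm_toP, ← toP_sub, h.D, toP_add, toP_add, toP_add]

omit [IsScalarTower F A A] [SMulCommClass F A A] in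
theorem toP_ne {x : A} (h : x ≠ 0) : toP F x ≠ 0 := by
  intro h2
  have h3 : (2⁻¹ : F) • x = 0 := h2
  rcases smul_eq_zero.1 h3 with h3 | h3
  · exact inv_ne_zero two_ne_zero h3
  · exact h h3

end

theorem jor_main (F : Type) [Field F] [CharZero F] (S : Set (H91RFD.Poly F))
    (hJ : ∀ (A : Type) [NonUnitalNonAssocRing A] [Module F A] [IsScalarTower F A A]
      [SMulCommClass F A A], H91RFD.InVar F A S →
      ∀ x y : A, pm (pm (pm x x) y) x = pm (pm x x) (pm y x))
    (hS : (∀ (A : Type) [NonUnitalRing A] [Module F A] [IsScalarTower F A A]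
        [SMulCommClass F A A], H91RFD.InVar F A S) ∨
      (∀ (A : Type) [NonUnitalRing A] [Module F A] [IsScalarTower F A A]
        [SMulCommClass F A A], H91RFD.InVar F (Plus A) S)) :
    ¬ RFDVariety F S := by
  have hfin : (rels F).Finite := by
    unfold rels
    exact Set.toFinite _
  have hfd : ∀ (A : Type) [NonUnitalNonAssocRing A] [Module F A] [IsScalarTower F A A]
      [SMulCommClass F A A], H91RFD.InVar F A S → ∀ s : Fin 3 → A,
      (∀ r ∈ rels F, lift F s r = 0) →
      ∀ I : Submodule F A, IsIdeal F I → FiniteDimensional F (A ⧸ I) → lift F s (L F 2) ∈ I := by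
    intro A _ _ _ _ hV s hs I hI hfin
    have h := (pt_iff s).1 hs
    rw [lift_L]
    exact fd (hJ A hV) (s 0) (s 1) (s 2) h.ee h.ea h.eb h.D I hI hfin
  obtain ⟨a, b, hab⟩ := pt_end F
  have h1 : (1 : Module.End F (Polynomial F)) ≠ 0 := one_ne_zero
  rcases hS with hS | hS
  · refine not_rfdVariety hfin (L F 2) (C := Module.End F (Polynomial F)) (hS _)
      ![a, b, 1] ?_ ?_ hfd
    · rw [pt_iff]
      exact hab
    · rw [lift_L]
      exact h1
  · refine not_rfdVariety hfin (L F 2) (C := Plus (Module.End F (Polynomial F))) (hS _)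
      ![toP F a, toP F b, toP F (1 : Module.End F (Polynomial F))] ?_ ?_ hfd
    · rw [pt_iff]
      exact pt_plus hab
    · rw [lift_L]
      exact toP_ne h1

end Pool.Agent.Y817.WA.Jor
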