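import Pool.Agent.Y817.WA.Main
import Pool.Agent.Y817.WA.Jor

/-!
# Word problems in varieties of Jordan-admissible algebras

Project WA (problem MP_59b51d_al), by helper817.
-/

set_option autoImplicit false

namespace Pool.Agent.Y817.WA.JorA

open Pool.Agent.Y817.WA
open Pool.Agent.Y817.WA.Jor (pm pm_add add_pm zero_pm pm_zero pm_comm smul_pm pm_smul Plus G
  G_eq_zero toP pm_toP toP_add)
open Pool.Agent.Y817.WK (evalWord StmArith StmDerive StmModel Gen Quad Rel relL ren evalZ W Sol
  evalZ_cons evalZ_nil relL_iff evalZ_ren)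

/-! ### Operators -/

section
variable {J : Type} [NonUnitalNonAssocRing J]

theorem comm_xy (hc : ∀ x y : J, x * y = y * x)
    (hj : ∀ x y : J, ((x * x) * y) * x = (x * x) * (y * x)) (h2 : ∀ x : J, x + x = 0 → x = 0)
    {e x y : J} (hx : e * x = x + x) (hy : e * y = 0) (hxy : x * y = 0) (u : J) :
    x * (y * u) = y * (x * u) := by
  have g := G_eq_zero hc hj h2 e x y u
  have key : G e x y u = (y * (x * u) - x * (y * u)) + (y * (x * u) - x * (y * u)) := by
    unfold G
    rw [hc y e, hx, hy, hxy]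
    simp only [add_mul, zero_mul, hc u y, hc (x * u) y]
    abel
  rw [key] at g
  exact (sub_eq_zero.1 (h2 _ g)).symm

end

section
variable {k : ℕ} {A : Type} [NonUnitalNonAssocRing A]

/-- `L_{x_1} ... L_{x_n} m`. -/
def Lw (x : Fin k → A) (v : List (Fin k)) (m : A) : A := v.foldr (fun i m => pm (x i) m) m

/-- `L_{y_n} ... L_{y_1} m`. -/
def py (y : Fin k → A) (v : List (Fin k)) (m : A) : A := v.foldl (fun m i => pm (y i) m) m

theorem Lw_cons (x : Fin k → A) (i : Fin k) (v : List (Fin k)) (m : A) :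
    Lw x (i :: v) m = pm (x i) (Lw x v m) := rfl

theorem py_zero (y : Fin k → A) (v : List (Fin k)) : py y v 0 = 0 := by
  unfold py
  induction v with
  | nil => rfl
  | cons i v ih => rw [List.foldl_cons, pm_zero, ih]

theorem py_add (y : Fin k → A) (v : List (Fin k)) : ∀ m m' : A,
    py y v (m + m') = py y v m + py y v m' := by
  unfold py
  induction v with
  | nil => intro m m'; rfl
  | cons i v ih => intro m m'; rw [List.foldl_cons, List.foldl_cons, List.foldl_cons, pm_add, ih]

theorem Lw_add (x : Fin k → A) (v : List (Fin k)) (m m' : A) :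
    Lw x v (m + m') = Lw x v m + Lw x v m' := by
  induction v with
  | nil => rfl
  | cons i v ih => rw [Lw_cons, Lw_cons, Lw_cons, ih, pm_add]

theorem Lw_zero (x : Fin k → A) (v : List (Fin k)) : Lw x v 0 = 0 := by
  induction v with
  | nil => rfl
  | cons i v ih => rw [Lw_cons, ih, pm_zero]

theorem Lw_neg (x : Fin k → A) (v : List (Fin k)) (m : A) : Lw x v (-m) = - Lw x v m := by
  have h := Lw_add x v m (-m)
  rw [add_neg_cancel, Lw_zero] at h
  exact eq_neg_of_add_eq_zero_right h.symm

variable {x y : Fin k → A} {ι : A}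
  (hxy : ∀ i j u, pm (x i) (pm (y j) u) = pm (y j) (pm (x i) u))
include hxy

theorem x_py (i : Fin k) (v : List (Fin k)) : ∀ m : A, pm (x i) (py y v m) = py y v (pm (x i) m) := by
  unfold py
  induction v with
  | nil => intro m; rfl
  | cons j v ih => intro m; rw [List.foldl_cons, List.foldl_cons, ih, hxy]

theorem Lw_py (w v : List (Fin k)) (m : A) : Lw x w (py y v m) = py y v (Lw x w m) := by
  induction w with
  | nil => rfl
  | cons i w ih => rw [Lw_cons, Lw_cons, ih, x_py hxy]

theorem Lw_iota (hι : ∀ i, pm (x i) ι = pm (y i) ι) (v : List (Fin k)) :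
    Lw x v ι = py y v ι := by
  induction v with
  | nil => rfl
  | cons i v ih =>
    rw [Lw_cons, ih, x_py hxy, hι]
    rfl

end

/-- The value of an associative polynomial as an operator, at `m`. -/
def ev {k : ℕ} {A : Type} [NonUnitalNonAssocRing A] (x : Fin k → A) (m : A)
    (f : List (ℤ × Fin k × List (Fin k))) : A :=
  (f.map fun t => t.1 • Lw x (t.2.1 :: t.2.2) m).sum

theorem ev_cons {k : ℕ} {A : Type} [NonUnitalNonAssocRing A] (x : Fin k → A) (m : A)
    (t : ℤ × Fin k × List (Fin k)) (f : List (ℤ × Fin k × List (Fin k))) :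
    ev x m (t :: f) = t.1 • Lw x (t.2.1 :: t.2.2) m + ev x m f := by
  simp [ev]

theorem ev_py {k : ℕ} {A : Type} [NonUnitalNonAssocRing A] {x y : Fin k → A} {ι : A}
    (hxy : ∀ i j u, pm (x i) (pm (y j) u) = pm (y j) (pm (x i) u))
    (v : List (Fin k)) (f : List (ℤ × Fin k × List (Fin k))) :
    ev x (py y v ι) f = py y v (ev x ι f) := by
  induction f with
  | nil => exact (py_zero y v).symm
  | cons t f ih =>
    rw [ev_cons, ev_cons, ih, py_add, Lw_py hxy]
    congr 1
    have hz : ∀ (c : ℤ) (m : A), c • py y v m = py y v (c • m) := by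
      intro c m
      exact (map_zsmul ({ toFun := py y v, map_zero' := py_zero y v, map_add' := py_add y v } :
        A →+ A) c m).symm
    exact hz _ _

theorem ev_madd {k : ℕ} {A : Type} [NonUnitalNonAssocRing A] (x : Fin k → A) (m m' : A)
    (f : List (ℤ × Fin k × List (Fin k))) : ev x (m + m') f = ev x m f + ev x m' f := by
  induction f with
  | nil => simp [ev]
  | cons t f ih =>
    rw [ev_cons, ev_cons, ev_cons, ih, Lw_add, smul_add]
    abel

theorem ev_mneg {k : ℕ} {A : Type} [NonUnitalNonAssocRing A] (x : Fin k → A) (m : A)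
    (f : List (ℤ × Fin k × List (Fin k))) : ev x (-m) f = - ev x m f := by
  induction f with
  | nil => simp [ev]
  | cons t f ih =>
    rw [ev_cons, ev_cons, ih, Lw_neg, smul_neg]
    abel

theorem ev_mzero {k : ℕ} {A : Type} [NonUnitalNonAssocRing A] (x : Fin k → A)
    (f : List (ℤ × Fin k × List (Fin k))) : ev x (0 : A) f = 0 := by
  induction f with
  | nil => simp [ev]
  | cons t f ih => rw [ev_cons, ih, Lw_zero, smul_zero, add_zero]

/-! ### The ring of operators -/

section
variable {k : ℕ} {A : Type} [NonUnitalNonAssocRing A] (x : Fin k → A) (ι : A)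

/-- The module generated by `ι`. -/
def Mo : AddSubgroup A := AddSubgroup.closure (Set.range fun v : List (Fin k) => Lw x v ι)

theorem pm_Mo (i : Fin k) {m : A} (hm : m ∈ Mo x ι) : pm (x i) m ∈ Mo x ι := by
  unfold Mo at hm ⊢
  induction hm using AddSubgroup.closure_induction with
  | mem m hm =>
    obtain ⟨v, rfl⟩ := hm
    exact AddSubgroup.subset_closure ⟨i :: v, rfl⟩
  | zero => rw [pm_zero]; exact AddSubgroup.zero_mem _
  | add a b _ _ iha ihb => rw [pm_add]; exact AddSubgroup.add_mem _ iha ihb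
  | neg a _ iha =>
    have h : pm (x i) (-a) = - pm (x i) a := Lw_neg x [i] a
    rw [h]
    exact AddSubgroup.neg_mem _ iha

/-- The operators. -/
def Xo (i : Fin k) : AddMonoid.End (Mo x ι) where
  toFun m := ⟨pm (x i) m.1, pm_Mo x ι i m.2⟩
  map_zero' := Subtype.ext (pm_zero (x i))
  map_add' m m' := Subtype.ext (pm_add (x i) m.1 m'.1)

theorem evalWord_Xo (i : Fin k) (l : List (Fin k)) (m : Mo x ι) :
    ((evalWord (Xo x ι) i l m : Mo x ι) : A) = Lw x (i :: l) m.1 := by
  have h2 : ∀ (l : List (Fin k)), ∃ m' : Mo x ι, (m' : A) = Lw x l m.1 ∧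
      ∀ u : AddMonoid.End (Mo x ι), l.foldl (fun u y => u * Xo x ι y) u m = u m' := by
    intro l
    induction l with
    | nil => exact ⟨m, rfl, fun u => rfl⟩
    | cons j l ih =>
      obtain ⟨m', h1, h3⟩ := ih
      refine ⟨Xo x ι j m', ?_, fun u => ?_⟩
      · change pm (x j) m'.1 = Lw x (j :: l) m.1
        rw [h1]
        rfl
      · rw [List.foldl_cons, h3]
        rfl
  obtain ⟨m', h1, h3⟩ := h2 l
  unfold evalWord
  rw [h3]
  change pm (x i) m'.1 = Lw x (i :: l) m.1
  rw [h1]
  rfl

theorem evalZ_Xo (f : List (ℤ × Fin k × List (Fin k))) (m : Mo x ι) :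
    ((evalZ (Xo x ι) f m : Mo x ι) : A) = ev x m.1 f := by
  induction f with
  | nil => rfl
  | cons t f ih =>
    rw [evalZ_cons, ev_cons, ← ih, ← evalWord_Xo]
    rfl

variable {y : Fin k → A}

theorem evalZ_zero (hxy : ∀ i j u, pm (x i) (pm (y j) u) = pm (y j) (pm (x i) u))
    (hι : ∀ i, pm (x i) ι = pm (y i) ι)
    (f : List (ℤ × Fin k × List (Fin k))) (hf : ev x ι f = 0) : evalZ (Xo x ι) f = 0 := by
  apply AddMonoidHom.ext
  intro m
  apply Subtype.ext
  refine (evalZ_Xo x ι f m).trans ?_
  obtain ⟨m, hm⟩ := m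
  change ev x m f = 0
  unfold Mo at hm
  induction hm using AddSubgroup.closure_induction with
  | mem m hm =>
    obtain ⟨v, rfl⟩ := hm
    change ev x (Lw x v ι) f = 0
    rw [Lw_iota hxy hι, ev_py hxy, hf, py_zero]
  | zero => exact ev_mzero x f
  | add a b _ _ iha ihb => rw [ev_madd, iha, ihb, add_zero]
  | neg a _ iha => rw [ev_mneg, iha, neg_zero]

end

end Pool.Agent.Y817.WA.JorA
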