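import Pool.Agent.Y817.WA.JorA

/-!
# Word problems in varieties of Jordan-admissible algebras: polynomials, model, main theorem
-/

set_option autoImplicit false

namespace Pool.Agent.Y817.WA.JorA

open Pool.Agent.Y817.WA
open Pool.Agent.Y817.WA.Jor (pm pm_add add_pm zero_pm pm_zero pm_comm smul_pm pm_smul Plus
  toP pm_toP toP_add)
open Pool.Agent.Y817.WK (evalWord StmArith StmDerive StmModel Gen Quad Rel relL ren evalZ W Sol
  evalZ_cons evalZ_nil relL_iff evalZ_ren)

/-! ### Polynomials -/

section
variable {k m : ℕ} (X : Fin k → Fin m) (I : Fin m)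

/-- The list of the terms of `L_{x_1} ... L_{x_n} ι`. -/
def wpm (v : List (Fin k)) : List (FreeMagma (Fin m)) :=
  v.foldr (fun i L => L.map (fun t => FreeMagma.of (X i) * t) ++
    L.map (fun t => t * FreeMagma.of (X i))) [FreeMagma.of I]

/-- Their codes. -/
def cw (v : List (Fin k)) : List (List (Option (Fin m))) :=
  v.foldr (fun i L => L.map (fun s => some (X i) :: (s ++ [none])) ++
    L.map (fun s => s ++ [some (X i), none])) [[some I]]

theorem cw_eq (v : List (Fin k)) : (wpm X I v).map code = cw X I v := by
  unfold wpm cw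
  induction v with
  | nil => rfl
  | cons i v ih =>
    rw [List.foldr_cons, List.foldr_cons, ← ih, List.map_append, List.map_map, List.map_map,
      List.map_map, List.map_map]
    congr 1
    refine List.map_congr_left fun t _ => ?_
    change code t ++ [some (X i)] ++ [none] = code t ++ [some (X i), none]
    simp

theorem cw_primrec : Primrec (cw X I) := by
  have h0 : Primrec (fun p : List (Fin k) × (Fin k × List (List (Option (Fin m)))) => p.2.2) :=
    Primrec.snd.comp Primrec.snd
  have hX : Primrec X := Primrec.dom_finite X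
  have h1 : Primrec₂ (fun (p : List (Fin k) × (Fin k × List (List (Option (Fin m)))))
      (s : List (Option (Fin m))) => some (X p.2.1) :: (s ++ [none])) := by
    refine Primrec.list_cons.comp (Primrec.option_some.comp (hX.comp
      (Primrec.fst.comp (Primrec.snd.comp Primrec.fst)))) ?_
    exact Primrec.list_append.comp Primrec.snd (Primrec.const _)
  have h2 : Primrec₂ (fun (p : List (Fin k) × (Fin k × List (List (Option (Fin m)))))
      (s : List (Option (Fin m))) => s ++ [some (X p.2.1), none]) := by
    refine Primrec.list_append.comp Primrec.snd (Primrec.list_cons.comp (Primrec.option_some.comp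
      (hX.comp (Primrec.fst.comp (Primrec.snd.comp Primrec.fst)))) (Primrec.const _))
  have h3 : Primrec₂ (fun (_ : List (Fin k)) (p : Fin k × List (List (Option (Fin m)))) =>
      p.2.map (fun s => some (X p.1) :: (s ++ [none])) ++
        p.2.map (fun s => s ++ [some (X p.1), none])) :=
    Primrec.list_append.comp (Primrec.list_map h0 h1) (Primrec.list_map h0 h2)
  exact Primrec.list_foldr (f := fun v : List (Fin k) => v)
    (g := fun _ : List (Fin k) => ([[some I]] : List (List (Option (Fin m)))))
    Primrec.id (Primrec.const _) h3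

variable {A : Type} [NonUnitalNonAssocRing A] (a : Fin m → A)

theorem lift_wpm (v : List (Fin k)) : ((wpm X I v).map (FreeMagma.lift a)).sum =
    Lw (fun i => a (X i)) v (a I) := by
  have hl : ∀ (u : FreeMagma (Fin m)) (L : List (FreeMagma (Fin m))),
      (L.map (fun t => FreeMagma.lift a (u * t))).sum =
        FreeMagma.lift a u * (L.map (FreeMagma.lift a)).sum := by
    intro u L
    induction L with
    | nil => simp
    | cons t L ih =>
      rw [List.map_cons, List.sum_cons, List.map_cons, List.sum_cons, ih, mul_add, map_mul]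
  have hr : ∀ (u : FreeMagma (Fin m)) (L : List (FreeMagma (Fin m))),
      (L.map (fun t => FreeMagma.lift a (t * u))).sum =
        (L.map (FreeMagma.lift a)).sum * FreeMagma.lift a u := by
    intro u L
    induction L with
    | nil => simp
    | cons t L ih =>
      rw [List.map_cons, List.sum_cons, List.map_cons, List.sum_cons, ih, add_mul, map_mul]
  induction v with
  | nil => simp [wpm, Lw]
  | cons i v ih =>
    rw [Lw_cons, ← ih]
    change (((wpm X I v).map (fun t => FreeMagma.of (X i) * t) ++
      (wpm X I v).map (fun t => t * FreeMagma.of (X i))).map (FreeMagma.lift a)).sum = _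
    rw [List.map_append, List.sum_append, List.map_map, List.map_map]
    exact congrArg₂ (· + ·) (hl (FreeMagma.of (X i)) (wpm X I v))
      (hr (FreeMagma.of (X i)) (wpm X I v))

/-- The relator attached to an associative polynomial. -/
def relP (f : List (ℤ × Fin k × List (Fin k))) : List (ℤ × FreeMagma (Fin m)) :=
  f.flatMap fun t => (wpm X I (t.2.1 :: t.2.2)).map fun s => (t.1, s)

theorem evalI_append (f f' : List (ℤ × FreeMagma (Fin m))) :
    evalI a (f ++ f') = evalI a f + evalI a f' := by
  simp [evalI]

theorem evalI_relP (f : List (ℤ × Fin k × List (Fin k))) :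
    evalI a (relP X I f) = ev (fun i => a (X i)) (a I) f := by
  induction f with
  | nil => rfl
  | cons t f ih =>
    rw [ev_cons, ← ih, ← lift_wpm]
    change evalI a ((wpm X I (t.2.1 :: t.2.2)).map (fun s => (t.1, s)) ++ relP X I f) = _
    rw [evalI_append]
    congr 1
    generalize wpm X I (t.2.1 :: t.2.2) = L
    unfold evalI
    induction L with
    | nil => simp
    | cons s L ih => simp only [List.map_cons, List.sum_cons, smul_add] at ih ⊢; rw [ih]

end

/-! ### Points -/

/-- The conditions on `x, y, ι, e`. -/
structure Pt {k : ℕ} {A : Type} [NonUnitalNonAssocRing A] (Rl : List (List (ℤ × Fin k × List (Fin k))))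
    (x y : Fin k → A) (ι e : A) : Prop where
  ex : ∀ i, pm e (x i) = x i + x i
  ey : ∀ i, pm e (y i) = 0
  xy : ∀ i j, pm (x i) (y j) = 0
  xι : ∀ i, pm (x i) ι = pm (y i) ι
  r : ∀ f ∈ Rl, ev x ι f = 0

theorem pt_derive {k : ℕ} {A : Type} [NonUnitalNonAssocRing A]
    {Rl : List (List (ℤ × Fin k × List (Fin k)))} {x y : Fin k → A} {ι e : A} (h : Pt Rl x y ι e)
    (hJ : ∀ x y : A, pm (pm (pm x x) y) x = pm (pm x x) (pm y x))
    (h2 : ∀ x : A, x + x = 0 → x = 0) :
    ∀ f ∈ Rl, evalZ (Xo x ι) f = 0 := by
  intro f hf
  refine evalZ_zero x ι (y := y) ?_ h.xι f (h.r f hf)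
  intro i j u
  exact comm_xy (J := Plus A) (fun x y => pm_comm (A := A) x y) hJ h2 (e := e) (x := x i)
    (y := y j) (h.ex i) (h.ey j) (h.xy i j) u

/-! ### The model -/

section
variable {K : Type} [Field K] {A : Type} [NonUnitalRing A] [Module K A] [IsScalarTower K A A]
  [SMulCommClass K A A]

/-- `b ↦ b e_{12}`. -/
def E12 (b : Unitization K A) : Matrix (Fin 2) (Fin 2) (Unitization K A) := Matrix.single 0 1 b

/-- The elements `x_i`. -/
def xM {k : ℕ} (g : Fin k → A) (i : Fin k) : Matrix (Fin 2) (Fin 2) (Unitization K A) :=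
  Matrix.single 0 0 (g i : Unitization K A)

/-- The elements `y_i`. -/
def yM {k : ℕ} (g : Fin k → A) (i : Fin k) : Matrix (Fin 2) (Fin 2) (Unitization K A) :=
  Matrix.single 1 1 (g i : Unitization K A)

theorem pm_xM {k : ℕ} (g : Fin k → A) (i : Fin k) (b : Unitization K A) :
    pm (xM (K := K) g i) (E12 b) = E12 ((g i : Unitization K A) * b) := by
  have h0 : Matrix.single (0 : Fin 2) (1 : Fin 2) b *
      Matrix.single (0 : Fin 2) (0 : Fin 2) (g i : Unitization K A) = 0 := by
    simp
  unfold pm xM E12
  rw [Matrix.single_mul_single_same, h0, add_zero]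

theorem pm_yM {k : ℕ} (g : Fin k → A) (i : Fin k) (b : Unitization K A) :
    pm (yM (K := K) g i) (E12 b) = E12 (b * (g i : Unitization K A)) := by
  have h0 : Matrix.single (1 : Fin 2) (1 : Fin 2) (g i : Unitization K A) *
      Matrix.single (0 : Fin 2) (1 : Fin 2) b = 0 := by
    simp
  unfold pm yM E12
  rw [h0, Matrix.single_mul_single_same, zero_add]

theorem Lw_xM {k : ℕ} (g : Fin k → A) (i : Fin k) (l : List (Fin k)) :
    Lw (xM (K := K) g) (i :: l) (E12 1) = E12 ((evalWord g i l : A) : Unitization K A) := by
  have h1 : ∀ l : List (Fin k), ∃ b : Unitization K A, Lw (xM (K := K) g) l (E12 1) = E12 b ∧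
      ∀ u : A, ((l.foldl (fun u y => u * g y) u : A) : Unitization K A) =
        (u : Unitization K A) * b := by
    intro l
    induction l with
    | nil => exact ⟨1, rfl, fun u => by rw [mul_one]; rfl⟩
    | cons j l ih =>
      obtain ⟨b, h1, h3⟩ := ih
      refine ⟨(g j : Unitization K A) * b, ?_, fun u => ?_⟩
      · rw [Lw_cons, h1, pm_xM]
      · rw [List.foldl_cons, h3, Unitization.inr_mul, mul_assoc]
  obtain ⟨b, h1, h3⟩ := h1 l
  rw [Lw_cons, h1, pm_xM]
  unfold evalWord
  rw [h3]

omit [Module K A] [IsScalarTower K A A] [SMulCommClass K A A] in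
theorem E12_add (b b' : Unitization K A) : E12 (b + b') = E12 b + E12 b' := by
  unfold E12
  rw [Matrix.single_add]

omit [Module K A] [IsScalarTower K A A] [SMulCommClass K A A] in
theorem E12_zsmul (c : ℤ) (b : Unitization K A) : E12 (c • b) = c • E12 b := by
  unfold E12
  rw [Matrix.smul_single]

theorem ev_xM {k : ℕ} (g : Fin k → A) (f : List (ℤ × Fin k × List (Fin k))) :
    ev (xM (K := K) g) (E12 1) f = E12 ((evalZ g f : A) : Unitization K A) := by
  induction f with
  | nil =>
    change (0 : Matrix (Fin 2) (Fin 2) (Unitization K A)) = E12 ((0 : A) : Unitization K A)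
    rw [Unitization.inr_zero]
    unfold E12
    rw [Matrix.single_zero]
  | cons t f ih =>
    rw [ev_cons, ih, Lw_xM, evalZ_cons, Unitization.inr_add, E12_add, ← E12_zsmul]
    congr 2
    exact (map_zsmul ({ toFun := fun a => (a : Unitization K A), map_zero' := Unitization.inr_zero K, map_add' := Unitization.inr_add K } : A →+ Unitization K A) t.1 _).symm

end

end Pool.Agent.Y817.WA.JorA
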