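import Pool.Agent.Y817.WA.JorB

/-!
# Word problems in varieties of Jordan-admissible algebras: main theorem
-/

set_option autoImplicit false

namespace Pool.Agent.Y817.WA.JorA

open Pool.Agent.Y817.WA
open Pool.Agent.Y817.WA.Jor (pm pm_add add_pm zero_pm pm_zero pm_comm smul_pm pm_smul Plus
  toP pm_toP toP_add)
open Pool.Agent.Y817.WK (evalWord StmArith StmDerive StmModel Gen Quad Rel relL ren evalZ W Sol
  evalZ_cons evalZ_nil relL_iff evalZ_ren)

/-! ### The relators -/

section
variable {k m : ℕ} (X Y : Fin k → Fin m) (I e : Fin m)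

/-- `e o x_i = 2 x_i`. -/
def r1 (i : Fin k) : List (ℤ × FreeMagma (Fin m)) :=
  [(1, FreeMagma.of e * FreeMagma.of (X i)), (1, FreeMagma.of (X i) * FreeMagma.of e),
    (-1, FreeMagma.of (X i)), (-1, FreeMagma.of (X i))]

/-- `u o v = 0`. -/
def r2 (u v : Fin m) : List (ℤ × FreeMagma (Fin m)) :=
  [(1, FreeMagma.of u * FreeMagma.of v), (1, FreeMagma.of v * FreeMagma.of u)]

/-- `x_i o ι = y_i o ι`. -/
def r3 (i : Fin k) : List (ℤ × FreeMagma (Fin m)) :=
  [(1, FreeMagma.of (X i) * FreeMagma.of I), (1, FreeMagma.of I * FreeMagma.of (X i)),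
    (-1, FreeMagma.of (Y i) * FreeMagma.of I), (-1, FreeMagma.of I * FreeMagma.of (Y i))]

/-- All relators. -/
def relJ (Rl : List (List (ℤ × Fin k × List (Fin k)))) : List (List (ℤ × FreeMagma (Fin m))) :=
  Rl.map (relP X I) ++ ((List.finRange k).map (r1 X e) ++
    ((List.finRange k).map (fun i => r2 e (Y i)) ++
      (((List.finRange k).flatMap fun i => (List.finRange k).map fun j => r2 (X i) (Y j)) ++
        (List.finRange k).map (r3 X Y I))))

variable {A : Type} [NonUnitalNonAssocRing A] (a : Fin m → A)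

theorem e_r1 (i : Fin k) : evalI a (r1 X e i) = 0 ↔ pm (a e) (a (X i)) = a (X i) + a (X i) := by
  unfold evalI r1 pm
  simp only [List.map_cons, List.map_nil, List.sum_cons, List.sum_nil, map_mul, one_smul, neg_smul,
    add_zero, FreeMagma.lift_of]
  rw [← sub_eq_zero (b := a (X i) + a (X i))]
  constructor
  · intro h
    rw [← h]
    abel
  · intro h
    rw [← h]
    abel

theorem e_r2 (u v : Fin m) : evalI a (r2 u v) = 0 ↔ pm (a u) (a v) = 0 := by
  unfold evalI r2 pm
  simp only [List.map_cons, List.map_nil, List.sum_cons, List.sum_nil, map_mul, one_smul,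
    add_zero, FreeMagma.lift_of]

theorem e_r3 (i : Fin k) : evalI a (r3 X Y I i) = 0 ↔ pm (a (X i)) (a I) = pm (a (Y i)) (a I) := by
  unfold evalI r3 pm
  simp only [List.map_cons, List.map_nil, List.sum_cons, List.sum_nil, map_mul, one_smul, neg_smul,
    add_zero, FreeMagma.lift_of]
  rw [← sub_eq_zero (b := a (Y i) * a I + a I * a (Y i))]
  constructor
  · intro h
    rw [← h]
    abel
  · intro h
    rw [← h]
    abel

theorem relJ_iff (Rl : List (List (ℤ × Fin k × List (Fin k)))) :
    (∀ r ∈ relJ X Y I e Rl, evalI a r = 0) ↔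
      Pt Rl (fun i => a (X i)) (fun i => a (Y i)) (a I) (a e) := by
  constructor
  · intro h
    refine ⟨fun i => ?_, fun i => ?_, fun i j => ?_, fun i => ?_, fun f hf => ?_⟩
    · rw [← e_r1]
      apply h
      simp only [relJ, List.mem_append, List.mem_map]
      exact Or.inr (Or.inl ⟨i, List.mem_finRange i, rfl⟩)
    · rw [← e_r2]
      apply h
      simp only [relJ, List.mem_append, List.mem_map]
      exact Or.inr (Or.inr (Or.inl ⟨i, List.mem_finRange i, rfl⟩))
    · rw [← e_r2]
      apply h
      simp only [relJ, List.mem_append, List.mem_map, List.mem_flatMap]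
      exact Or.inr (Or.inr (Or.inr (Or.inl
        ⟨i, List.mem_finRange i, j, List.mem_finRange j, rfl⟩)))
    · rw [← e_r3]
      apply h
      simp only [relJ, List.mem_append, List.mem_map]
      exact Or.inr (Or.inr (Or.inr (Or.inr ⟨i, List.mem_finRange i, rfl⟩)))
    · rw [← evalI_relP]
      apply h
      simp only [relJ, List.mem_append, List.mem_map]
      exact Or.inl ⟨f, hf, rfl⟩
  · intro h r hr
    simp only [relJ, List.mem_append, List.mem_map, List.mem_flatMap] at hr
    rcases hr with ⟨f, hf, rfl⟩ | ⟨i, -, rfl⟩ | ⟨i, -, rfl⟩ | ⟨i, -, j, -, rfl⟩ | ⟨i, -, rfl⟩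
    · rw [evalI_relP]
      exact h.r f hf
    · rw [e_r1]
      exact h.ex i
    · rw [e_r2]
      exact h.ey i
    · rw [e_r2]
      exact h.xy i j
    · rw [e_r3]
      exact h.xι i

end

/-! ### Points of the models -/

section
variable {K : Type} [Field K] [CharZero K]

theorem Lw_toP {k : ℕ} {A : Type} [NonUnitalNonAssocRing A] [Module K A] [IsScalarTower K A A]
    [SMulCommClass K A A] (x : Fin k → A) (v : List (Fin k)) (m : A) :
    Lw (fun i => toP K (x i)) v (toP K m) = toP K (Lw x v m) := by
  induction v with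
  | nil => rfl
  | cons i v ih => rw [Lw_cons, Lw_cons, ih, pm_toP]

theorem toP_zero {A : Type} [NonUnitalNonAssocRing A] [Module K A] :
    toP K (0 : A) = 0 := by
  have h : (2⁻¹ : K) • (0 : A) = 0 := smul_zero _
  exact h

theorem ev_toP {k : ℕ} {A : Type} [NonUnitalNonAssocRing A] [Module K A] [IsScalarTower K A A]
    [SMulCommClass K A A] (x : Fin k → A) (m : A) (f : List (ℤ × Fin k × List (Fin k))) :
    ev (fun i => toP K (x i)) (toP K m) f = toP K (ev x m f) := by
  induction f with
  | nil => exact (toP_zero (K := K) (A := A)).symm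
  | cons t f ih =>
    rw [ev_cons, ev_cons, ih, Lw_toP, toP_add]
    congr 1
    exact (map_zsmul ({ toFun := toP K, map_zero' := toP_zero, map_add' := toP_add } :
      A →+ Plus A) t.1 _).symm

theorem pt_toP {k : ℕ} {A : Type} [NonUnitalNonAssocRing A] [Module K A] [IsScalarTower K A A]
    [SMulCommClass K A A] {Rl : List (List (ℤ × Fin k × List (Fin k)))} {x y : Fin k → A} {ι e : A}
    (h : Pt Rl x y ι e) :
    Pt Rl (fun i => toP K (x i)) (fun i => toP K (y i)) (toP K ι) (toP K e) := by
  refine ⟨fun i => ?_, fun i => ?_, fun i j => ?_, fun i => ?_, fun f hf => ?_⟩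
  · rw [pm_toP, h.ex, toP_add]
  · rw [pm_toP, h.ey, toP_zero]
  · rw [pm_toP, h.xy, toP_zero]
  · rw [pm_toP, pm_toP, h.xι]
  · rw [ev_toP, h.r f hf, toP_zero]

theorem toP_inj {A : Type} [NonUnitalNonAssocRing A] [Module K A] {x : A} (h : toP K x = 0) :
    x = 0 := by
  have h3 : (2⁻¹ : K) • x = 0 := h
  rcases smul_eq_zero.1 h3 with h3 | h3
  · exact absurd h3 (inv_ne_zero two_ne_zero)
  · exact h3

omit [CharZero K] in
theorem pt_M {k : ℕ} {A : Type} [NonUnitalRing A] [Module K A] [IsScalarTower K A A]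
    [SMulCommClass K A A] (Rl : List (List (ℤ × Fin k × List (Fin k)))) (g : Fin k → A)
    (h : ∀ f ∈ Rl, evalZ g f = 0) :
    Pt Rl (xM (K := K) g) (yM (K := K) g) (E12 1) (Matrix.single 0 0 1) := by
  refine ⟨fun i => ?_, fun i => ?_, fun i j => ?_, fun i => ?_, fun f hf => ?_⟩
  · unfold pm xM
    rw [Matrix.single_mul_single_same, Matrix.single_mul_single_same, one_mul, mul_one]
  · unfold pm yM
    simp
  · unfold pm xM yM
    simp
  · rw [pm_xM, pm_yM, one_mul, mul_one]
  · rw [ev_xM, h f hf]
    unfold E12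
    rw [Unitization.inr_zero, Matrix.single_zero]

end

/-- The main theorem for Jordan-admissible algebras. -/
theorem mainJ (hA : StmArith) (hD : StmDerive) (hM : StmModel) :
    ∃ (m : ℕ) (R : List (List (ℤ × FreeMagma (Fin m)))),
      ∀ (K : Type) [Field K] [CharZero K] (ν : ℕ → K), Function.Surjective ν →
        ∀ Id : Set (List (K × FreeMagma ℕ)),
          (∀ (A : Type) [NonUnitalNonAssocRing A] [Module K A] [IsScalarTower K A A]
            [SMulCommClass K A A], InVar Id A →
            ∀ x y : A, pm (pm (pm x x) y) x = pm (pm x x) (pm y x)) →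
          ((∀ (A : Type) [NonUnitalRing A] [Module K A] [IsScalarTower K A A]
            [SMulCommClass K A A], InVar Id A) ∨
          (∀ (A : Type) [NonUnitalRing A] [Module K A] [IsScalarTower K A A]
            [SMulCommClass K A A], InVar Id (Plus A))) →
          ¬ DecidableWP ν Id (R.map fun r => r.map fun t => ((t.1 : K), t.2)) := by
  classical
  obtain ⟨S, hS, hS'⟩ := Pool.Agent.Y817.WK.exists_set
  obtain ⟨a, b, n, Q, hQ⟩ := hA S hS
  have := Pool.Agent.Y817.WK.finite_gen a b
  obtain ⟨k, ⟨e⟩⟩ : ∃ k, Nonempty (Gen (Fin a) (Fin b) ≃ Fin k) := ⟨_, ⟨Finite.equivFin _⟩⟩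
  obtain ⟨m, ⟨E⟩⟩ : ∃ m, Nonempty (Fin k ⊕ (Fin k ⊕ Fin 2) ≃ Fin m) := ⟨_, ⟨Finite.equivFin _⟩⟩
  let X : Fin k → Fin m := fun i => E (Sum.inl i)
  let Y : Fin k → Fin m := fun i => E (Sum.inr (Sum.inl i))
  let I : Fin m := E (Sum.inr (Sum.inr 0))
  let ee : Fin m := E (Sum.inr (Sum.inr 1))
  let Rl : List (List (ℤ × Fin k × List (Fin k))) := (relL n Q).map (ren e)
  refine ⟨m, relJ X Y I ee Rl, ?_⟩
  intro K _ _ ν hν Id hJ hId hdec
  obtain ⟨n1, hn1⟩ := hν 1
  obtain ⟨d, hd, hd'⟩ := hdec
  apply hS'
  let l0 : ℕ → List (Fin k) := fun c =>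
    e Gen.p :: ((List.range c).map (fun _ => e (Gen.x n)) ++ [e Gen.z, e Gen.q0])
  let F : ℕ → List (ℕ × FreeMagma (Fin m)) := fun c => (wpm X I (l0 c)).map fun u => (n1, u)
  let F' : ℕ → List (ℕ × List (Option (Fin m))) := fun c => (cw X I (l0 c)).map fun s => (n1, s)
  have hFF : ∀ c, (F c).map (fun t => (t.1, code t.2)) = F' c := by
    intro c
    simp only [F, F', ← cw_eq, List.map_map]
    rfl
  have hF' : Computable F' := by
    apply Primrec.to_comp
    have h1 : Primrec (fun c : ℕ => (List.range c).map (fun _ => e (Gen.x n))) :=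
      Primrec.list_map Primrec.list_range ((Primrec.const _).to₂)
    have h2 : Primrec l0 := Primrec.list_cons.comp (Primrec.const _)
      (Primrec.list_append.comp h1 (Primrec.const _))
    exact Primrec.list_map ((cw_primrec X I).comp h2)
      (Primrec.pair (Primrec.const _) Primrec.snd).to₂
  have hev : ∀ (c : ℕ) (A : Type) [NonUnitalNonAssocRing A] [Module K A] (g : Fin m → A),
      evalPoly g ((F c).map fun t => (ν t.1, t.2)) = Lw (fun i => g (X i)) (l0 c) (g I) := by
    intro c A _ _ g
    rw [← lift_wpm]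
    simp only [F, evalPoly, List.map_map]
    congr 1
    refine List.map_congr_left fun t _ => ?_
    change ν n1 • FreeMagma.lift g t = FreeMagma.lift g t
    rw [hn1, one_smul]
  have hrel : ∀ (A : Type) [NonUnitalRing A] (g : Fin k → A),
      (∀ r ∈ Rl, evalZ g r = 0) ↔ Rel n Q (fun u => g (e u)) := by
    intro A _ g
    rw [← relL_iff]
    simp only [Rl, List.mem_map, forall_exists_index, and_imp, forall_apply_eq_imp_iff₂,
      evalZ_ren]
  have hcast : ∀ (A : Type) [NonUnitalNonAssocRing A] [Module K A] (g : Fin m → A),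
      (∀ r ∈ ((relJ X Y I ee Rl).map fun r => r.map fun t => ((t.1 : K), t.2)),
        evalPoly g r = 0) ↔
      Pt Rl (fun i => g (X i)) (fun i => g (Y i)) (g I) (g ee) := by
    intro A _ _ g
    rw [← relJ_iff]
    constructor
    · intro h r hr
      rw [← evalPoly_cast (K := K)]
      exact h _ (List.mem_map_of_mem hr)
    · intro h r hr
      obtain ⟨r', hr', rfl⟩ := List.mem_map.1 hr
      rw [evalPoly_cast]
      exact h r' hr'
  have hWl : ∀ (c : ℕ) (A : Type) [NonUnitalRing A] (g : Fin k → A),
      evalWord g (e Gen.p) ((List.range c).map (fun _ => e (Gen.x n)) ++ [e Gen.z, e Gen.q0]) =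
        W n (fun u => g (e u)) c := by
    intro c A _ g
    simp only [evalWord, List.foldl_append, List.foldl_cons, List.foldl_nil, W]
    rw [List.map_const', List.length_range, ← List.map_replicate, List.foldl_map]
  rw [ComputablePred.computable_iff]
  refine ⟨fun c => d (F' c), hd.comp hF', ?_⟩
  funext c
  apply propext
  change S c ↔ d (F' c) = true
  rw [← hFF c, hd', hQ]
  constructor
  · intro h A _ _ _ _ hV g hg
    rw [hev]
    have hpt := (hcast A g).1 hg
    have htors : ∀ x : A, x + x = 0 → x = 0 := by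
      intro x hx
      rw [← two_smul K x] at hx
      rcases smul_eq_zero.1 hx with h2 | h2
      · exact absurd h2 two_ne_zero
      · exact h2
    have hz := pt_derive hpt (hJ A hV) htors
    have hR := (hrel _ _).1 hz
    have h0 := hD _ _ n Q _ _ hR c h
    rw [← hWl] at h0
    have hmem : g I ∈ Mo (fun i => g (X i)) (g I) := AddSubgroup.subset_closure ⟨[], rfl⟩
    have h1 := evalWord_Xo (fun i => g (X i)) (g I) (e Gen.p)
      ((List.range c).map (fun _ => e (Gen.x n)) ++ [e Gen.z, e Gen.q0]) ⟨g I, hmem⟩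
    rw [h0] at h1
    exact h1.symm
  · intro h
    by_contra hc
    obtain ⟨A, i1, i2, i3, i4, g, hW, hR, hne⟩ := hM K (Fin a) (Fin b) n Q c hc
    let g' : Fin k → A := fun u => g (e.symm u)
    have hg' : (fun u => g' (e u)) = g := by
      funext u
      simp [g']
    have hz : ∀ r ∈ Rl, evalZ g' r = 0 := by
      rw [hrel, hg']
      exact hR
    have hpt := pt_M (K := K) Rl g' hz
    have hval : Lw (xM (K := K) g') (l0 c) (E12 1) ≠ 0 := by
      intro h1
      have h2 := Lw_xM (K := K) g' (e Gen.p)
        ((List.range c).map (fun _ => e (Gen.x n)) ++ [e Gen.z, e Gen.q0])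
      have h3 := h2.symm.trans h1
      rw [hWl, hg'] at h3
      apply hne
      have h4 := congrFun (congrFun h3 0) 1
      unfold E12 at h4
      rw [Matrix.single_apply_same] at h4
      exact Unitization.inr_injective (R := K) (h4.trans (Unitization.inr_zero K).symm)
    rcases hId with hId | hId
    · let pt : Fin k ⊕ (Fin k ⊕ Fin 2) → Matrix (Fin 2) (Fin 2) (Unitization K A) := fun t =>
        match t with
        | Sum.inl i => xM g' i
        | Sum.inr (Sum.inl i) => yM g' i
        | Sum.inr (Sum.inr j) => if j = 0 then E12 1 else Matrix.single 0 0 1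
      have h1 := h (Matrix (Fin 2) (Fin 2) (Unitization K A)) (hId _) (fun t => pt (E.symm t))
        ((hcast _ _).2 (by
          simp only [X, Y, I, ee, Equiv.symm_apply_apply]
          exact hpt))
      rw [hev] at h1
      apply hval
      simp only [X, I, Equiv.symm_apply_apply] at h1
      exact h1
    · let pt : Fin k ⊕ (Fin k ⊕ Fin 2) → Plus (Matrix (Fin 2) (Fin 2) (Unitization K A)) := fun t =>
        match t with
        | Sum.inl i => toP K (xM (K := K) g' i)
        | Sum.inr (Sum.inl i) => toP K (yM (K := K) g' i)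
        | Sum.inr (Sum.inr j) => if j = 0 then toP K (E12 (1 : Unitization K A)) else
          toP K (Matrix.single (0 : Fin 2) (0 : Fin 2) (1 : Unitization K A))
      have h1 := h (Plus (Matrix (Fin 2) (Fin 2) (Unitization K A))) (hId _)
        (fun t => pt (E.symm t))
        ((hcast _ _).2 (by
          simp only [X, Y, I, ee, Equiv.symm_apply_apply]
          exact pt_toP hpt))
      rw [hev] at h1
      apply hval
      apply toP_inj (K := K)
      rw [← Lw_toP]
      simp only [X, I, Equiv.symm_apply_apply] at h1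
      exact h1

end Pool.Agent.Y817.WA.JorA
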