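import Pool.Agent.Y817.WK.Fin
import Pool.Agent.Y817.WA.Alt
import Pool.Agent.Y817.WA.Defs

/-!
# Assembly
-/

set_option autoImplicit false

namespace Pool.Agent.Y817.WA

open Pool.Agent.Y817.WK (evalWord StmArith StmDerive StmModel Gen Quad Rel relL ren evalZ W)

/-! ### The subring generated by a finite set -/

section
variable {X A : Type} [NonUnitalNonAssocRing A]

/-- The additive group generated by the values of the words. -/
def Span (g : X → A) : AddSubgroup A :=
  AddSubgroup.closure (Set.range fun u : FreeMagma X => FreeMagma.lift g u)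

theorem span_mul (g : X → A) {x y : A} (hx : x ∈ Span g) (hy : y ∈ Span g) : x * y ∈ Span g := by
  unfold Span at hx hy ⊢
  induction hx using AddSubgroup.closure_induction with
  | mem x hx =>
    obtain ⟨u, rfl⟩ := hx
    induction hy using AddSubgroup.closure_induction with
    | mem y hy =>
      obtain ⟨v, rfl⟩ := hy
      refine AddSubgroup.subset_closure ⟨u * v, ?_⟩
      exact map_mul _ u v
    | zero => rw [mul_zero]; exact AddSubgroup.zero_mem _
    | add a b _ _ iha ihb => rw [mul_add]; exact AddSubgroup.add_mem _ iha ihb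
    | neg a _ iha => rw [mul_neg]; exact AddSubgroup.neg_mem _ iha
  | zero => rw [zero_mul]; exact AddSubgroup.zero_mem _
  | add a b _ _ iha ihb => rw [add_mul]; exact AddSubgroup.add_mem _ iha ihb
  | neg a _ iha => rw [neg_mul]; exact AddSubgroup.neg_mem _ iha

theorem span_as (g : X → A)
    (h : ∀ u v w : FreeMagma X,
      as (FreeMagma.lift g u) (FreeMagma.lift g v) (FreeMagma.lift g w) = 0)
    {x y z : A} (hx : x ∈ Span g) (hy : y ∈ Span g) (hz : z ∈ Span g) : as x y z = 0 := by
  unfold Span at hx hy hz
  induction hx using AddSubgroup.closure_induction with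
  | mem x hx =>
    obtain ⟨u, rfl⟩ := hx
    induction hy using AddSubgroup.closure_induction with
    | mem y hy =>
      obtain ⟨v, rfl⟩ := hy
      induction hz using AddSubgroup.closure_induction with
      | mem z hz =>
        obtain ⟨w, rfl⟩ := hz
        exact h u v w
      | zero => exact as_zero3 _ _
      | add a b _ _ iha ihb => rw [as_add3, iha, ihb, add_zero]
      | neg a _ iha => rw [as_neg3, iha, neg_zero]
    | zero => exact as_zero2 _ _
    | add a b _ _ iha ihb => rw [as_add2, iha, ihb, add_zero]
    | neg a _ iha => rw [as_neg2, iha, neg_zero]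
  | zero => exact as_zero1 _ _
  | add a b _ _ iha ihb => rw [as_add1, iha, ihb, add_zero]
  | neg a _ iha => rw [as_neg1, iha, neg_zero]

/-- The subring generated by the values of `g`. -/
def Sub (g : X → A) : NonUnitalSubring A where
  carrier := Span g
  add_mem' := fun ha hb => AddSubgroup.add_mem _ ha hb
  zero_mem' := AddSubgroup.zero_mem _
  mul_mem' := fun ha hb => span_mul g ha hb
  neg_mem' := fun ha => AddSubgroup.neg_mem _ ha

/-- It is an associative ring when the associators of words vanish. -/
@[reducible] def ringSub (g : X → A)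
    (h : ∀ u v w : FreeMagma X,
      as (FreeMagma.lift g u) (FreeMagma.lift g v) (FreeMagma.lift g w) = 0) :
    NonUnitalRing (Sub g) :=
  { (inferInstance : NonUnitalNonAssocRing (Sub g)) with
    mul_assoc := by
      intro x y z
      apply Subtype.ext
      exact sub_eq_zero.1 (span_as g h x.2 y.2 z.2) }

theorem gen_mem (g : X → A) (x : X) : g x ∈ Sub g :=
  AddSubgroup.subset_closure ⟨FreeMagma.of x, rfl⟩

end

/-! ### Left-normed words -/

/-- The left-normed word. -/
def lw {X : Type} (x : X) (l : List X) : FreeMagma X :=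
  l.foldl (fun u y => u * FreeMagma.of y) (FreeMagma.of x)

theorem lift_lw {X A : Type} [Mul A] (a : X → A) (x : X) (l : List X) :
    FreeMagma.lift a (lw x l) = evalWord a x l := by
  unfold lw evalWord
  have h : ∀ (l : List X) (u : FreeMagma X),
      FreeMagma.lift a (l.foldl (fun u y => u * FreeMagma.of y) u) =
        l.foldl (fun u y => u * a y) (FreeMagma.lift a u) := by
    intro l
    induction l with
    | nil => intro u; rfl
    | cons y l ih =>
      intro u
      rw [List.foldl_cons, ih, map_mul]
      rfl
  exact h l _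

theorem code_lw {X : Type} (x : X) (l : List X) :
    code (lw x l) = some x :: l.flatMap (fun y => [some y, none]) := by
  unfold lw
  have h : ∀ (l : List X) (u : FreeMagma X),
      code (l.foldl (fun u y => u * FreeMagma.of y) u) =
        code u ++ l.flatMap (fun y => [some y, none]) := by
    intro l
    induction l with
    | nil => intro u; simp
    | cons y l ih =>
      intro u
      rw [List.foldl_cons, ih]
      change (code u ++ [some y] ++ [none]) ++ _ = _
      simp
  rw [h]
  rfl

/-- The nonassociative polynomial with left-normed words. -/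
def lp {C X : Type} (f : List (C × X × List X)) : List (C × FreeMagma X) :=
  f.map fun t => (t.1, lw t.2.1 t.2.2)

/-- Value of a polynomial with integral coefficients. -/
def evalI {X A : Type} [NonUnitalNonAssocRing A] (a : X → A) (f : List (ℤ × FreeMagma X)) : A :=
  (f.map fun t => t.1 • FreeMagma.lift a t.2).sum

theorem evalPoly_cast {K X A : Type} [Field K] [NonUnitalNonAssocRing A] [Module K A] (a : X → A)
    (f : List (ℤ × FreeMagma X)) :
    evalPoly a (f.map fun t => ((t.1 : K), t.2)) = evalI a f := by
  unfold evalPoly evalI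
  rw [List.map_map]
  congr 1
  refine List.map_congr_left fun t _ => ?_
  exact Int.cast_smul_eq_zsmul K t.1 _

/-- In an associative ring the value of `lp f` is the old one. -/
theorem evalI_lp {X A : Type} [NonUnitalRing A] (a : X → A) (f : List (ℤ × X × List X)) :
    evalI a (lp f) = evalZ a f := by
  unfold evalI evalZ lp
  rw [List.map_map]
  congr 1
  refine List.map_congr_left fun t _ => ?_
  change t.1 • FreeMagma.lift a (lw t.2.1 t.2.2) = _
  rw [lift_lw]

/-- Values in a subring. -/
theorem evalI_sub {X A : Type} [NonUnitalNonAssocRing A] (g : X → A)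
    (f : List (ℤ × FreeMagma X)) :
    ((evalI (fun x => (⟨g x, gen_mem g x⟩ : Sub g)) f : Sub g) : A) = evalI g f := by
  have h : ∀ u : FreeMagma X,
      ((FreeMagma.lift (fun x => (⟨g x, gen_mem g x⟩ : Sub g)) u : Sub g) : A) =
        FreeMagma.lift g u := by
    intro u
    induction u with
    | ih1 x => rfl
    | ih2 u v ihu ihv =>
      rw [map_mul, map_mul, ← ihu, ← ihv]
      rfl
  unfold evalI
  induction f with
  | nil => rfl
  | cons t f ih =>
    rw [List.map_cons, List.sum_cons, List.map_cons, List.sum_cons, ← ih, ← h t.2]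
    rfl

/-! ### The relations -/

/-- The associator of three words. -/
def asP {X : Type} (u v w : FreeMagma X) : List (ℤ × FreeMagma X) :=
  [(1, u * v * w), (-1, u * (v * w))]

theorem evalI_asP {X A : Type} [NonUnitalNonAssocRing A] (a : X → A) (u v w : FreeMagma X) :
    evalI a (asP u v w) =
      as (FreeMagma.lift a u) (FreeMagma.lift a v) (FreeMagma.lift a w) := by
  unfold evalI asP as
  simp only [List.map_cons, List.map_nil, List.sum_cons, List.sum_nil, map_mul, one_smul, neg_smul,
    add_zero]
  abel

/-- The associators of generators, and those of type `(g_i g_j, g_k, g_l)`. -/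
def asL (k : ℕ) : List (List (ℤ × FreeMagma (Fin k))) :=
  ((List.finRange k).flatMap fun i => (List.finRange k).flatMap fun j => (List.finRange k).map
    fun l => asP (FreeMagma.of i) (FreeMagma.of j) (FreeMagma.of l)) ++
  ((List.finRange k).flatMap fun i => (List.finRange k).flatMap fun j =>
    (List.finRange k).flatMap fun l => (List.finRange k).map
    fun m => asP (FreeMagma.of i * FreeMagma.of j) (FreeMagma.of l) (FreeMagma.of m))

theorem asL_spec {A : Type} [NonUnitalNonAssocRing A] {k : ℕ} (g : Fin k → A)
    (h : ∀ r ∈ asL k, evalI g r = 0) :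
    (∀ i j l, as (g i) (g j) (g l) = 0) ∧ (∀ i j l m, as (g i * g j) (g l) (g m) = 0) := by
  constructor
  · intro i j l
    have h1 := h (asP (FreeMagma.of i) (FreeMagma.of j) (FreeMagma.of l)) (by
      unfold asL
      refine List.mem_append_left _ ?_
      simp only [List.mem_flatMap, List.mem_map]
      exact ⟨i, List.mem_finRange i, j, List.mem_finRange j, l, List.mem_finRange l, rfl⟩)
    rw [evalI_asP] at h1
    exact h1
  · intro i j l m
    have h1 := h (asP (FreeMagma.of i * FreeMagma.of j) (FreeMagma.of l) (FreeMagma.of m)) (by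
      unfold asL
      refine List.mem_append_right _ ?_
      simp only [List.mem_flatMap, List.mem_map]
      exact ⟨i, List.mem_finRange i, j, List.mem_finRange j, l, List.mem_finRange l,
        m, List.mem_finRange m, rfl⟩)
    rw [evalI_asP, map_mul] at h1
    exact h1

theorem asL_assoc {A : Type} [NonUnitalRing A] {k : ℕ} (g : Fin k → A) :
    ∀ r ∈ asL k, evalI g r = 0 := by
  have h : ∀ u v w : FreeMagma (Fin k), evalI g (asP u v w) = 0 := by
    intro u v w
    rw [evalI_asP]
    unfold as
    rw [mul_assoc, sub_self]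
  intro r hr
  unfold asL at hr
  rcases List.mem_append.1 hr with hr | hr
  · simp only [List.mem_flatMap, List.mem_map] at hr
    obtain ⟨i, -, j, -, l, -, rfl⟩ := hr
    exact h _ _ _
  · simp only [List.mem_flatMap, List.mem_map] at hr
    obtain ⟨i, -, j, -, l, -, m, -, rfl⟩ := hr
    exact h _ _ _

/-- The main theorem. -/
theorem main (hA : StmArith) (hD : StmDerive) (hM : StmModel) :
    ∃ (k : ℕ) (R : List (List (ℤ × FreeMagma (Fin k)))),
      ∀ (K : Type) [Field K] [CharZero K] (ν : ℕ → K), Function.Surjective ν →
        ∀ Id : Set (List (K × FreeMagma ℕ)), ContainsW K Id → IsAlternative K Id →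
          ¬ DecidableWP ν Id (R.map fun r => r.map fun t => ((t.1 : K), t.2)) := by
  classical
  obtain ⟨S, hS, hS'⟩ := Pool.Agent.Y817.WK.exists_set
  obtain ⟨a, b, n, Q, hQ⟩ := hA S hS
  have := Pool.Agent.Y817.WK.finite_gen a b
  obtain ⟨k, ⟨e⟩⟩ : ∃ k, Nonempty (Gen (Fin a) (Fin b) ≃ Fin k) := ⟨_, ⟨Finite.equivFin _⟩⟩
  refine ⟨k, (((relL n Q).map (ren e)).map lp) ++ asL k, ?_⟩
  intro K _ _ ν hν Id hId hAlt hdec
  obtain ⟨n1, hn1⟩ := hν 1
  obtain ⟨d, hd, hd'⟩ := hdec
  apply hS'
  -- the words
  let l0 : ℕ → List (Fin k) := fun c =>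
    (List.range c).map (fun _ => e (Gen.x n)) ++ [e Gen.z, e Gen.q0]
  let F : ℕ → List (ℕ × FreeMagma (Fin k)) := fun c => [(n1, lw (e Gen.p) (l0 c))]
  let F' : ℕ → List (ℕ × List (Option (Fin k))) := fun c =>
    [(n1, some (e Gen.p) :: (l0 c).flatMap (fun y => [some y, none]))]
  have hFF : ∀ c, (F c).map (fun t => (t.1, code t.2)) = F' c := by
    intro c
    simp only [F, F', List.map_cons, List.map_nil, code_lw]
  have hF' : Computable F' := by
    apply Primrec.to_comp
    have h1 : Primrec (fun c : ℕ => (List.range c).map (fun _ => e (Gen.x n))) :=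
      Primrec.list_map Primrec.list_range ((Primrec.const _).to₂)
    have h2 : Primrec l0 := Primrec.list_append.comp h1 (Primrec.const _)
    have h3 : Primrec (fun y : Fin k => [some y, none]) :=
      Primrec.list_cons.comp Primrec.option_some (Primrec.const _)
    have h4 : Primrec (fun c : ℕ => (l0 c).flatMap (fun y => [some y, none])) :=
      Primrec.list_flatMap h2 (h3.comp Primrec.snd).to₂
    have h5 : Primrec (fun c : ℕ => some (e Gen.p) :: (l0 c).flatMap (fun y => [some y, none])) :=
      Primrec.list_cons.comp (Primrec.const _) h4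
    exact Primrec.list_cons.comp (Primrec.pair (Primrec.const _) h5) (Primrec.const [])
  -- evaluation of the words
  have hlw : ∀ (c : ℕ) (A : Type) [NonUnitalRing A] (g : Fin k → A),
      FreeMagma.lift g (lw (e Gen.p) (l0 c)) = W n (fun u => g (e u)) c := by
    intro c A _ g
    rw [lift_lw]
    simp only [l0, evalWord, List.foldl_append, List.foldl_cons, List.foldl_nil, W]
    rw [List.map_const', List.length_range, ← List.map_replicate, List.foldl_map]
  have hev : ∀ (c : ℕ) (A : Type) [NonUnitalNonAssocRing A] [Module K A] (g : Fin k → A),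
      evalPoly g ((F c).map fun t => (ν t.1, t.2)) = FreeMagma.lift g (lw (e Gen.p) (l0 c)) := by
    intro c A _ _ g
    simp only [F, List.map_cons, List.map_nil, evalPoly, List.sum_cons, List.sum_nil, hn1,
      one_smul, add_zero]
  have hrel : ∀ (A : Type) [NonUnitalRing A] (g : Fin k → A),
      (∀ r ∈ ((relL n Q).map (ren e)).map lp, evalI g r = 0) ↔ Rel n Q (fun u => g (e u)) := by
    intro A _ g
    rw [← Pool.Agent.Y817.WK.relL_iff]
    simp only [List.mem_map, forall_exists_index, and_imp, forall_apply_eq_imp_iff₂,
      evalI_lp, Pool.Agent.Y817.WK.evalZ_ren]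
  have hcast : ∀ (A : Type) [NonUnitalNonAssocRing A] [Module K A] (g : Fin k → A),
      (∀ r ∈ (((((relL n Q).map (ren e)).map lp) ++ asL k).map
        fun r => r.map fun t => ((t.1 : K), t.2)), evalPoly g r = 0) ↔
      (∀ r ∈ ((relL n Q).map (ren e)).map lp, evalI g r = 0) ∧ (∀ r ∈ asL k, evalI g r = 0) := by
    intro A _ _ g
    have h1 : (∀ r ∈ (((((relL n Q).map (ren e)).map lp) ++ asL k).map
        fun r => r.map fun t => ((t.1 : K), t.2)), evalPoly g r = 0) ↔
        ∀ r ∈ ((((relL n Q).map (ren e)).map lp) ++ asL k), evalI g r = 0 := by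
      constructor
      · intro h r hr
        rw [← evalPoly_cast (K := K)]
        exact h _ (List.mem_map_of_mem hr)
      · intro h r hr
        obtain ⟨r', hr', rfl⟩ := List.mem_map.1 hr
        rw [evalPoly_cast]
        exact h r' hr'
    rw [h1]
    constructor
    · intro h
      exact ⟨fun r hr => h r (List.mem_append_left _ hr),
        fun r hr => h r (List.mem_append_right _ hr)⟩
    · rintro ⟨h2, h3⟩ r hr
      rcases List.mem_append.1 hr with hr | hr
      · exact h2 r hr
      · exact h3 r hr
  rw [ComputablePred.computable_iff]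
  refine ⟨fun c => d (F' c), hd.comp hF', ?_⟩
  funext c
  apply propext
  change S c ↔ d (F' c) = true
  rw [← hFF c, hd', hQ]
  constructor
  · intro h A _ _ _ _ hV g hg
    rw [hev]
    obtain ⟨hg1, hg2⟩ := (hcast A g).1 hg
    obtain ⟨b1, b2⟩ := asL_spec g hg2
    have hAA : IsAlt A := fun x y => hAlt A hV x y
    have htors : ∀ x : A, x + x = 0 → x = 0 := by
      intro x hx
      rw [← two_smul K x] at hx
      rcases smul_eq_zero.1 hx with h2 | h2
      · exact absurd h2 two_ne_zero
      · exact h2
    have hw := fun u v w => words hAA htors g b1 b2 _ u v w rfl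
    let _ : NonUnitalRing (Sub g) := ringSub g hw
    let g' : Fin k → Sub g := fun x => ⟨g x, gen_mem g x⟩
    have hR : Rel n Q (fun u => g' (e u)) := by
      rw [← hrel]
      intro r hr
      apply Subtype.ext
      exact (evalI_sub g r).trans (hg1 r hr)
    have h0 := hD _ _ n Q (Sub g) _ hR c h
    rw [← hlw] at h0
    have h1 := evalI_sub g [(1, lw (e Gen.p) (l0 c))]
    have h2 : ∀ (B : Type) [NonUnitalNonAssocRing B] (f : Fin k → B),
        evalI f [(1, lw (e Gen.p) (l0 c))] = FreeMagma.lift f (lw (e Gen.p) (l0 c)) := by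
      intro B _ f
      simp [evalI]
    rw [h2, h2] at h1
    rw [← h1]
    exact congrArg Subtype.val h0
  · intro h
    by_contra hc
    obtain ⟨A, i1, i2, i3, i4, g, hW, hR, hne⟩ := hM K (Fin a) (Fin b) n Q c hc
    have hR' : Rel n Q (fun u => (fun v => g (e.symm v)) (e u)) := by simpa using hR
    have h1 := h A (hId A hW.1 hW.2) (fun u => g (e.symm u))
      ((hcast A _).2 ⟨(hrel A _).2 hR', asL_assoc _⟩)
    rw [hev, hlw] at h1
    exact hne (by simpa using h1)

end Pool.Agent.Y817.WA
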