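import Pool.Agent.Y817.WA.Main
import Pool.Agent.H91R2.RFD.Basic2

/-!
# A finitely presented algebra which is not residually finite-dimensional

Project WA (problem MP_038c09_al), by helper817.
-/

set_option autoImplicit false

namespace Pool.Agent.Y817.WA.Rfd

open Pool.Agent.Y817.WA
open Pool.Agent.Y817.WK (StmTri)

/-- `p x x ... x` (left-normed). -/
def Pw {A : Type} [Mul A] (p x : A) : ℕ → A
  | 0 => p
  | m + 1 => Pw p x m * x

section
variable {B : Type} [NonUnitalRing B] {p x e z q : B}

theorem chain1 (r1 : x * e = e * x - x * z) (r2 : z * x = x * z) (r3 : p * e = 0) :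
    ∀ m : ℕ, Pw p x m * e = -(m • (Pw p x m * z)) := by
  intro m
  induction m with
  | zero => simp [Pw, r3]
  | succ m ih =>
    change Pw p x m * x * e = -((m + 1) • (Pw p x m * x * z))
    rw [mul_assoc, r1, mul_sub, ← mul_assoc, ih, ← mul_assoc, neg_mul, smul_mul_assoc,
      mul_assoc (Pw p x m) z x, r2, ← mul_assoc, succ_nsmul]
    abel

theorem chain (r1 : x * e = e * x - x * z) (r2 : z * x = x * z) (r3 : p * e = 0)
    (r4 : x * z * q - z * q + e * q = 0) :
    ∀ m : ℕ, Pw p x m * z * q = m.factorial • (p * z * q) := by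
  intro m
  induction m with
  | zero => simp [Pw]
  | succ m ih =>
    change Pw p x m * x * z * q = (m + 1).factorial • (p * z * q)
    have h1 : x * z * q = z * q - e * q := by
      rw [← sub_eq_zero, ← r4]
      abel
    have h2 : Pw p x m * x * z * q = Pw p x m * (x * z * q) := by
      simp only [mul_assoc]
    rw [h2, h1, mul_sub, ← mul_assoc, ← mul_assoc, chain1 r1 r2 r3 m, neg_mul, smul_mul_assoc, ih,
      Nat.factorial_succ, mul_nsmul', add_nsmul, one_nsmul]
    abel

end

/-- Sums of factorials do not vanish. -/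
theorem fact_indep {F : Type} [Field F] [CharZero F] (s : Finset ℕ) (g : ℕ → F)
    (h : ∀ j : ℕ, ∑ i ∈ s, g i * ((i + j).factorial : F) = 0) : ∀ i ∈ s, g i = 0 := by
  classical
  set G : Polynomial F := ∑ i ∈ s, Polynomial.C (g i) * ascPochhammer F i with hG
  have hev : ∀ j : ℕ, G.eval ((j : F) + 1) = 0 := by
    intro j
    have h1 : ∀ i, ((j.factorial : F)) * (ascPochhammer F i).eval ((j : F) + 1) =
        ((i + j).factorial : F) := by
      intro i
      have h2 : (ascPochhammer F i).eval ((j : F) + 1) = (((j + 1).ascFactorial i : ℕ) : F) := by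
        rw [← ascPochhammer_nat_eq_ascFactorial]
        rw [ascPochhammer_eval_cast (S := F) i (j + 1), Nat.cast_add, Nat.cast_one]
      rw [h2, ← Nat.cast_mul, Nat.factorial_mul_ascFactorial, add_comm]
    have h3 : (j.factorial : F) * G.eval ((j : F) + 1) = 0 := by
      rw [hG, Polynomial.eval_finsetSum, Finset.mul_sum, ← h j]
      refine Finset.sum_congr rfl fun i _ => ?_
      rw [Polynomial.eval_mul, Polynomial.eval_C, ← h1 i]
      ring
    rcases mul_eq_zero.1 h3 with h4 | h4
    · exact absurd h4 (Nat.cast_ne_zero.2 (Nat.factorial_ne_zero j))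
    · exact h4
  have hG0 : G = 0 := by
    apply Polynomial.eq_zero_of_infinite_isRoot
    refine Set.Infinite.mono (s := Set.range fun j : ℕ => (j : F) + 1) ?_ ?_
    · rintro _ ⟨j, rfl⟩
      exact hev j
    · apply Set.infinite_range_of_injective
      intro a b hab
      simpa using hab
  by_contra hcon
  push Not at hcon
  have hne : (s.filter fun i => g i ≠ 0).Nonempty := by
    obtain ⟨i, hi, hi'⟩ := hcon
    exact ⟨i, Finset.mem_filter.2 ⟨hi, hi'⟩⟩
  set M := (s.filter fun i => g i ≠ 0).max' hne with hM
  have hMs := Finset.mem_filter.1 ((s.filter fun i => g i ≠ 0).max'_mem hne)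
  have hMmax : ∀ i ∈ s, g i ≠ 0 → i ≤ M := fun i hi hi' =>
    Finset.le_max' _ _ (Finset.mem_filter.2 ⟨hi, hi'⟩)
  have hc : G.coeff M = g M := by
    rw [hG, Polynomial.finsetSum_coeff, Finset.sum_eq_single M]
    · rw [Polynomial.coeff_C_mul]
      have h1 : (ascPochhammer F M).coeff M = 1 := by
        have := (monic_ascPochhammer F M).coeff_natDegree
        rwa [ascPochhammer_natDegree] at this
      rw [h1, mul_one]
    · intro i hi hiM
      rw [Polynomial.coeff_C_mul]
      by_cases h0 : g i = 0
      · rw [h0, zero_mul]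
      · have h1 : i < M := lt_of_le_of_ne (hMmax i hi h0) hiM
        rw [Polynomial.coeff_eq_zero_of_natDegree_lt, mul_zero]
        rw [ascPochhammer_natDegree]
        exact h1
    · intro h1
      exact absurd hMs.1 h1
  rw [hG0, Polynomial.coeff_zero] at hc
  exact hMs.2 hc.symm

/-! ### The model -/

/-- The operator `- X d/dX`. -/
noncomputable def dE (F : Type) [Field F] : Derivation F (Polynomial F) (Polynomial F) :=
  (-Polynomial.X : Polynomial F) • Polynomial.derivative'

/-- The functional `X ^ m ↦ m!`. -/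
noncomputable def ph (F : Type) [Field F] : Polynomial F →ₗ[F] F :=
  (Polynomial.basisMonomials F).constr F fun m => (m.factorial : F)

theorem ph_X (F : Type) [Field F] (m : ℕ) : ph F (Polynomial.X ^ m) = (m.factorial : F) := by
  unfold ph
  have h := (Polynomial.basisMonomials F).constr_basis F (fun m => (m.factorial : F)) m
  rw [Polynomial.coe_basisMonomials] at h
  rw [Polynomial.X_pow_eq_monomial]
  exact h

theorem ph_rel (F : Type) [Field F] :
    (ph F) ∘ₗ (LinearMap.mulLeft F Polynomial.X) - ph F +
      (ph F) ∘ₗ ((dE F : Polynomial F →ₗ[F] Polynomial F)) = 0 := by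
  apply (Polynomial.basisMonomials F).ext
  intro m
  rw [Polynomial.coe_basisMonomials]
  simp only [LinearMap.add_apply, LinearMap.sub_apply, LinearMap.comp_apply,
    LinearMap.mulLeft_apply, LinearMap.zero_apply, Derivation.coeFn_coe]
  have h1 : dE F (Polynomial.monomial m (1 : F)) = -(m : F) • (Polynomial.X ^ m) := by
    unfold dE
    rw [Derivation.smul_apply, Polynomial.derivative'_apply, Polynomial.derivative_monomial,
      smul_eq_mul]
    cases m with
    | zero => simp
    | succ m =>
      rw [neg_mul, Nat.add_sub_cancel, one_mul, Polynomial.X_mul_monomial,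
        ← Polynomial.C_mul_X_pow_eq_monomial, ← Polynomial.smul_eq_C_mul, neg_smul]
  rw [h1, map_smul, ← Polynomial.X_pow_eq_monomial, ← pow_succ', ph_X, ph_X,
    Nat.factorial_succ, smul_eq_mul]
  push_cast
  ring

theorem exists_model (hT : StmTri) (F : Type) [Field F] :
    ∃ (A : Type) (_ : NonUnitalRing A) (_ : Module F A) (_ : IsScalarTower F A A)
      (_ : SMulCommClass F A A) (p x e z q : A), Pool.Agent.Y817.WK.InW A ∧
      x * e = e * x - x * z ∧ z * x = x * z ∧ p * e = 0 ∧ x * z * q - z * q + e * q = 0 ∧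
      p * z * q ≠ 0 := by
  obtain ⟨A, i1, i2, i3, i4, β, U, Qm, Qf, Mm, hW, hM0, hMi, hadd, hmul, hU0, hUb, hbQf, hbQm,
    hUQm, hUQf⟩ := hT F (Polynomial F) F
  refine ⟨A, i1, i2, i3, i4, U 1 0, β Polynomial.X 0 0, β 0 (dE F) 0, β 0 0 1, Qm (ph F), hW,
    ?_, ?_, ?_, ?_, ?_⟩
  · rw [eq_sub_iff_add_eq, hmul, hmul, hmul, hadd]
    have h1 : dE F Polynomial.X = -Polynomial.X := by
      unfold dE
      rw [Derivation.smul_apply, Polynomial.derivative'_apply, Polynomial.derivative_X,
        smul_eq_mul, mul_one]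
    rw [h1]
    simp
  · rw [hmul, hmul]
    simp
  · rw [hUb]
    simp [hU0]
  · have h1 : β Polynomial.X 0 0 * β 0 0 1 = β 0 0 Polynomial.X := by
      rw [hmul]
      simp
    rw [h1, hbQm, hbQm, hbQm, ← map_sub, ← map_add]
    have h2 : (ph F) ∘ₗ (((0 : Derivation F (Polynomial F) (Polynomial F)) :
          Polynomial F →ₗ[F] Polynomial F) + LinearMap.mulLeft F Polynomial.X) -
        (ph F) ∘ₗ (((0 : Derivation F (Polynomial F) (Polynomial F)) :
          Polynomial F →ₗ[F] Polynomial F) + LinearMap.mulLeft F 1) +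
        (ph F) ∘ₗ (((dE F : Derivation F (Polynomial F) (Polynomial F)) :
          Polynomial F →ₗ[F] Polynomial F) + LinearMap.mulLeft F 0) = 0 := by
      rw [← ph_rel F]
      ext f
      simp
    rw [h2, map_zero]
  · rw [hUb]
    simp only [mul_zero, mul_one, add_zero, zero_add, Derivation.zero_apply]
    rw [hUQm]
    intro h
    have h1 := hMi (h.trans hM0.symm)
    have h2 := ph_X F 0
    rw [pow_zero, h1] at h2
    simp at h2

/-! ### The theorem -/

open H91RFD FreeNonUnitalNonAssocAlgebra

/-- The letters of the presentation. -/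
noncomputable def L (F : Type) [Field F] (i : Fin 5) : Free F (Fin 5) := of F i

/-- The relators `xe - ex + xz`, `zx - xz`, `pe`, `xzq - zq + eq` (`p, x, e, z, q = 0, ..., 4`) and
the associators `(g_i, g_j, g_k)`, `(g_i g_j, g_k, g_l)` of the generators. -/
noncomputable def rels (F : Type) [Field F] : Set (Free F (Fin 5)) :=
  {L F 1 * L F 2 - (L F 2 * L F 1 - L F 1 * L F 3), L F 3 * L F 1 - L F 1 * L F 3,
    L F 0 * L F 2, L F 1 * L F 3 * L F 4 - L F 3 * L F 4 + L F 2 * L F 4} ∪
  ((Set.range fun t : Fin 5 × Fin 5 × Fin 5 => as (L F t.1) (L F t.2.1) (L F t.2.2)) ∪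
    Set.range fun t : Fin 5 × Fin 5 × Fin 5 × Fin 5 =>
      as (L F t.1 * L F t.2.1) (L F t.2.2.1) (L F t.2.2.2))

theorem rels_finite (F : Type) [Field F] : (rels F).Finite := by
  unfold rels
  exact (Set.toFinite _).union ((Set.finite_range _).union (Set.finite_range _))

theorem lift_as {F : Type} [Field F] {A : Type} [NonUnitalNonAssocRing A] [Module F A]
    [IsScalarTower F A A] [SMulCommClass F A A] (s : Fin 5 → A) (x y z : Free F (Fin 5)) :
    lift F s (as x y z) = as (lift F s x) (lift F s y) (lift F s z) := by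
  unfold as
  rw [map_sub, map_mul, map_mul, map_mul, map_mul]

theorem lift_L {F : Type} [Field F] {A : Type} [NonUnitalNonAssocRing A] [Module F A]
    [IsScalarTower F A A] [SMulCommClass F A A] (s : Fin 5 → A) (i : Fin 5) :
    lift F s (L F i) = s i := by
  unfold L
  exact lift_of_apply F s i

theorem rfd_main (hT : StmTri) (F : Type) [Field F] [CharZero F] (S : Set (H91RFD.Poly F))
    (hW : ∀ (A : Type) [NonUnitalRing A] [Module F A] [IsScalarTower F A A] [SMulCommClass F A A],
      (∀ x y z t u v : A, x * (y * z - z * y) * (t * u - u * t) * v = 0) →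
      (∀ x y z t u : A, x * ((y * z - z * y) * t - t * (y * z - z * y)) * u = 0) →
      H91RFD.InVar F A S)
    (hAlt : ∀ (A : Type) [NonUnitalNonAssocRing A] [Module F A] [IsScalarTower F A A]
      [SMulCommClass F A A], H91RFD.InVar F A S →
      ∀ x y : A, x * x * y = x * (x * y) ∧ y * x * x = y * (x * x)) :
    ¬ RFDVariety F S := by
  obtain ⟨C, i1, i2, i3, i4, p, x, e, z, q, hCW, m1, m2, m3, m4, m5⟩ := exists_model hT F
  refine not_rfdVariety (rels_finite F) (L F 0 * L F 3 * L F 4) (C := C)
    (hW C hCW.1 hCW.2) ![p, x, e, z, q] ?_ ?_ ?_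
  · intro r hr
    unfold rels at hr
    rcases hr with hr | hr | hr
    · simp only [Set.mem_insert_iff, Set.mem_singleton_iff] at hr
      rcases hr with rfl | rfl | rfl | rfl
      · simp only [map_sub, map_mul, lift_L]
        simpa using sub_eq_zero.2 m1
      · simp only [map_sub, map_mul, lift_L]
        simpa using sub_eq_zero.2 m2
      · simp only [map_mul, lift_L]
        simpa using m3
      · simp only [map_add, map_sub, map_mul, lift_L]
        simpa using m4
    · obtain ⟨t, rfl⟩ := hr
      change lift F _ (as _ _ _) = 0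
      rw [lift_as]
      unfold as
      rw [mul_assoc, sub_self]
    · obtain ⟨t, rfl⟩ := hr
      change lift F _ (as _ _ _) = 0
      rw [lift_as]
      unfold as
      rw [mul_assoc, sub_self]
  · simp only [map_mul, lift_L]
    simpa using m5
  · intro A _ _ _ _ hV s hs I hI hfin
    have hAA : IsAlt A := fun x y => hAlt A hV x y
    have htors : ∀ x : A, x + x = 0 → x = 0 := by
      intro x hx
      rw [← two_smul F x] at hx
      rcases smul_eq_zero.1 hx with h2 | h2
      · exact absurd h2 two_ne_zero
      · exact h2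
    have b1 : ∀ i j k, as (s i) (s j) (s k) = 0 := by
      intro i j k
      have h := hs (as (L F i) (L F j) (L F k)) (Or.inr (Or.inl ⟨(i, j, k), rfl⟩))
      rwa [lift_as, lift_L, lift_L, lift_L] at h
    have b2 : ∀ i j k l, as (s i * s j) (s k) (s l) = 0 := by
      intro i j k l
      have h := hs (as (L F i * L F j) (L F k) (L F l)) (Or.inr (Or.inr ⟨(i, j, k, l), rfl⟩))
      rwa [lift_as, map_mul, lift_L, lift_L, lift_L, lift_L] at h
    have hw := fun u v w => words hAA htors s b1 b2 _ u v w rfl
    have q1 : s 1 * s 2 = s 2 * s 1 - s 1 * s 3 := by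
      have h := hs (L F 1 * L F 2 - (L F 2 * L F 1 - L F 1 * L F 3))
        (Or.inl (by simp))
      simp only [map_sub, map_mul, lift_L] at h
      exact sub_eq_zero.1 h
    have q2 : s 3 * s 1 = s 1 * s 3 := by
      have h := hs (L F 3 * L F 1 - L F 1 * L F 3) (Or.inl (by simp))
      simp only [map_sub, map_mul, lift_L] at h
      exact sub_eq_zero.1 h
    have q3 : s 0 * s 2 = 0 := by
      have h := hs (L F 0 * L F 2) (Or.inl (by simp))
      simpa only [map_mul, lift_L] using h
    have q4 : s 1 * s 3 * s 4 - s 3 * s 4 + s 2 * s 4 = 0 := by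
      have h := hs (L F 1 * L F 3 * L F 4 - L F 3 * L F 4 + L F 2 * L F 4) (Or.inl (by simp))
      simpa only [map_add, map_sub, map_mul, lift_L] using h
    have hch : ∀ m : ℕ, Pw (s 0) (s 1) m * s 3 * s 4 = m.factorial • (s 0 * s 3 * s 4) := by
      let _ : NonUnitalRing (Sub s) := ringSub s hw
      let g' : Fin 5 → Sub s := fun x => ⟨s x, gen_mem s x⟩
      have hP : ∀ m, ((Pw (g' 0) (g' 1) m : Sub s) : A) = Pw (s 0) (s 1) m := by
        intro m
        induction m with
        | zero => rfl
        | succ m ih =>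
          change ((Pw (g' 0) (g' 1) m : Sub s) : A) * s 1 = Pw (s 0) (s 1) m * s 1
          rw [ih]
      intro m
      have h := chain (B := Sub s) (p := g' 0) (x := g' 1) (e := g' 2) (z := g' 3) (q := g' 4)
        (Subtype.ext q1) (Subtype.ext q2) (Subtype.ext q3) (Subtype.ext q4) m
      have h1 := congrArg (Subtype.val : Sub s → A) h
      have h2 : ((Pw (g' 0) (g' 1) m * g' 3 * g' 4 : Sub s) : A) =
          Pw (s 0) (s 1) m * s 3 * s 4 := by
        rw [← hP m]
        rfl
      rw [← h2, h1]
      rfl
    simp only [map_mul, lift_L]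
    by_contra hcon
    set w : A := s 0 * s 3 * s 4 with hwdef
    apply Module.Finite.not_linearIndependent_of_infinite (R := F)
      (fun m : ℕ => I.mkQ (Pw (s 0) (s 1) m))
    rw [linearIndependent_iff']
    intro t g hg
    apply fact_indep t g
    intro j
    have hx : ∀ j : ℕ, ∑ i ∈ t, g i • Pw (s 0) (s 1) (i + j) ∈ I := by
      intro j
      induction j with
      | zero =>
        simp only [Nat.add_zero]
        rw [← Submodule.Quotient.mk_eq_zero, ← Submodule.mkQ_apply, map_sum]
        simpa only [map_smul] using hg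
      | succ j ih =>
        have h1 := (hI _ ih (s 1)).1
        rw [Finset.sum_mul] at h1
        have h2 : ∀ i, g i • Pw (s 0) (s 1) (i + j) * s 1 =
            g i • Pw (s 0) (s 1) (i + (j + 1)) := by
          intro i
          rw [smul_mul_assoc]
          rfl
        rwa [Finset.sum_congr rfl fun i _ => h2 i] at h1
    have h3 := (hI _ (hI _ (hx j) (s 3)).1 (s 4)).1
    rw [Finset.sum_mul, Finset.sum_mul] at h3
    have h4 : ∀ i, g i • Pw (s 0) (s 1) (i + j) * s 3 * s 4 =
        (g i * ((i + j).factorial : F)) • w := by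
      intro i
      rw [smul_mul_assoc, smul_mul_assoc, hch, mul_smul, ← Nat.cast_smul_eq_nsmul F]
    rw [Finset.sum_congr rfl fun i _ => h4 i, ← Finset.sum_smul] at h3
    by_contra hne
    apply hcon
    have h5 := I.smul_mem (∑ i ∈ t, g i * ((i + j).factorial : F))⁻¹ h3
    rwa [smul_smul, inv_mul_cancel₀ hne, one_smul] at h5

end Pool.Agent.Y817.WA.Rfd
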